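import Mathlib

/-!
In the symmetric groups every automorphism of a cyclic subgroup is induced by a conjugation.
-/

namespace Pool.Agent.Lib.MP_0e6cae_nt.KF

open Equiv.Perm in
theorem cycleType_pow_coprime {α : Type} [Fintype α] [DecidableEq α] (σ : Equiv.Perm α) (a : ℕ)
    (h : a.Coprime (orderOf σ)) : (σ ^ a).cycleType = σ.cycleType := by
  induction σ using cycle_induction_on with
  | base_one => simp
  | base_cycles σ hσ =>
    rw [(hσ.pow_iff.2 h).cycleType, hσ.cycleType, support_pow_coprime h]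
  | induction_disjoint σ τ hd _ hσ hτ =>
    rw [hd.orderOf] at h
    have h1 := hσ (Nat.Coprime.coprime_dvd_right (dvd_lcm_left _ _) h)
    have h2 := hτ (Nat.Coprime.coprime_dvd_right (dvd_lcm_right _ _) h)
    rw [hd.commute.mul_pow, (hd.pow_disjoint_pow a a).cycleType_mul, hd.cycleType_mul, h1, h2]

theorem full_of_perm {H : Type} [Group H] (Γ N : Subgroup H) (hN : N ≤ Γ) (hcyc : IsCyclic N)
    (m : ℕ) (e : Γ ≃* Equiv.Perm (Fin m)) (φ : N ≃* N) :
    ∃ γ ∈ Γ, ∀ g : N, ((φ g : N) : H) = γ * g * γ⁻¹ := by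
  have hfin : Finite Γ := Finite.of_equiv _ e.symm.toEquiv
  have hfinN : Finite N := Finite.of_injective _ (Subgroup.inclusion_injective hN)
  obtain ⟨x, hx⟩ := IsCyclic.exists_generator (α := N)
  obtain ⟨a, ha⟩ : ∃ a : ℕ, x ^ a = φ x := by
    have h1 : φ x ∈ Submonoid.powers x := mem_powers_iff_mem_zpowers.2 (hx (φ x))
    exact h1
  have hord : orderOf (x ^ a) = orderOf x := by
    rw [ha]
    exact orderOf_injective φ.toMonoidHom φ.injective x
  have hcop : a.Coprime (orderOf x) := by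
    have h1 : Function.Surjective fun g : N => g ^ a := by
      intro g
      obtain ⟨k, hk⟩ : ∃ k : ℤ, x ^ k = φ.symm g := hx (φ.symm g)
      refine ⟨x ^ k, ?_⟩
      change (x ^ k) ^ a = g
      have h2 : (x ^ k) ^ a = (x ^ a) ^ k := by
        rw [← zpow_natCast, ← zpow_mul, mul_comm, zpow_mul, zpow_natCast]
      rw [h2, ha, ← map_zpow, hk, MulEquiv.apply_symm_apply]
    rw [orderOf_pow] at hord
    have hpos : 0 < orderOf x := orderOf_pos x
    rw [Nat.div_eq_iff_eq_mul_left (Nat.gcd_pos_of_pos_left _ hpos) (Nat.gcd_dvd_left _ _)] at hord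
    have h3 : orderOf x * 1 = orderOf x * (orderOf x).gcd a := by
      rw [mul_one]
      exact hord
    have h4 := Nat.eq_of_mul_eq_mul_left hpos h3
    rw [Nat.coprime_iff_gcd_eq_one, Nat.gcd_comm]
    exact h4.symm
  let y : Equiv.Perm (Fin m) := e (Subgroup.inclusion hN x)
  have hy : orderOf y = orderOf x := by
    have h1 : Function.Injective (e.toMonoidHom.comp (Subgroup.inclusion hN)) :=
      e.injective.comp (Subgroup.inclusion_injective hN)
    exact orderOf_injective (e.toMonoidHom.comp (Subgroup.inclusion hN)) h1 x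
  have hconj : IsConj y (y ^ a) := by
    rw [Equiv.Perm.isConj_iff_cycleType_eq, cycleType_pow_coprime y a (by rwa [hy])]
  obtain ⟨c, hc⟩ := isConj_iff.1 hconj
  refine ⟨(e.symm c : Γ), (e.symm c).2, fun g => ?_⟩
  obtain ⟨k, rfl⟩ : ∃ k : ℤ, x ^ k = g := hx g
  have h5 : ((φ x : N) : H) = (e.symm c : Γ) * (x : H) * ((e.symm c : Γ) : H)⁻¹ := by
    have h6 : e.symm (c * y * c⁻¹) = e.symm (y ^ a) := by rw [hc]
    rw [map_mul, map_mul, map_inv, map_pow, MulEquiv.symm_apply_apply] at h6
    have h7 := congrArg (Subtype.val (p := fun z => z ∈ Γ)) h6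
    rw [← ha]
    exact h7.symm
  rw [map_zpow, Subgroup.coe_zpow, h5, Subgroup.coe_zpow, conj_zpow]

end Pool.Agent.Lib.MP_0e6cae_nt.KF
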