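import Pool.Agent.Lib.MP_0e6cae_nt.KF.ResB
import Pool.Agent.Lib.MP_0e6cae_nt.St

/-!
The main theorem for cyclic subgroups of any order.
-/

open CategoryTheory NumberField IsDedekindDomain

namespace Pool.Agent.Lib.MP_0e6cae_nt.KF

open St

theorem finite_faut (F : Type) [Field F] [NumberField F] : Finite (FAut F) := by
  have h : Finite (F ≃ₐ[ℚ] F) := inferInstance
  refine Finite.of_injective (fun γ : FAut F => (AlgEquiv.ofRingEquiv (f := γ.toEquiv)
    (fun r => map_ratCast γ.toEquiv r) : F ≃ₐ[ℚ] F)) fun γ γ' hγ => ?_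
  have h1 : ∀ y, γ.toEquiv y = γ'.toEquiv y := fun y => AlgEquiv.congr_fun hγ y
  exact RingEquiv.ext h1

theorem finite_int {H : Type} [Group H] [Finite H] (M : Type) [AddCommGroup M]
    [Module (MonoidAlgebra ℤ H) M] (h : Module.Finite (MonoidAlgebra ℤ H) M) :
    Module.Finite ℤ M :=
  Module.Finite.trans (MonoidAlgebra ℤ H) M

theorem finrank_eq {F : Type} [Field F] [NumberField F] {Γ : Subgroup (FAut F)}
    {S : Set (FinPl F)} (hSfin : S.Finite) (E : St.TwoExt Γ S)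
    (hA : Module.Finite (ZG Γ) E.A) (hB : Module.Finite (ZG Γ) E.B) :
    Module.finrank ℤ E.A = Module.finrank ℤ E.B := by
  have hfin : Finite (FAut F) := finite_faut F
  have hAZ : Module.Finite ℤ E.toLib.A := @finite_int Γ _ _ E.A E.grpA E.modA hA
  have hBZ : Module.Finite ℤ E.toLib.B := @finite_int Γ _ _ E.B E.grpB E.modB hB
  have hr := finrank_exact4 E.toLib.i E.toLib.d.toAddMonoidHom E.toLib.e E.toLib.inj E.toLib.exA
    E.toLib.exB E.toLib.surj
  have hUS := finrank_US (F := F) (S := S) hSfin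
  have hXS := finrank_XS (F := F) (S := S) hSfin
  have hAA : Module.finrank ℤ E.toLib.A = Module.finrank ℤ E.A := rfl
  have hBB : Module.finrank ℤ E.toLib.B = Module.finrank ℤ E.B := rfl
  omega

/-- **Main theorem**, `N` cyclic of any order. -/
theorem main_cyc (F : Type) [Field F] [NumberField F] (Γ N : Subgroup (FAut F)) (hN : N ≤ Γ)
    (hcyc : IsCyclic N)
    (hfull : ∀ φ : N ≃* N, ∃ γ ∈ Γ, ∀ g : N, ((φ g : N) : FAut F) = γ * g * γ⁻¹)
    (S : Set (FinPl F)) (hSfin : S.Finite) (E : St.TwoExt Γ S)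
    (hA : Module.Finite (ZG Γ) E.A) (hA' : FPD (ZG Γ) E.A)
    (hB : Module.Finite (ZG Γ) E.B) (hB' : FPD (ZG Γ) E.B) :
    ∃ (h₁ : Module.Finite (ZG N) (St.Res hN E.A)) (h₂ : FPD (ZG N) (St.Res hN E.A))
      (h₃ : Module.Finite (ZG N) (St.Res hN E.B)) (h₄ : FPD (ZG N) (St.Res hN E.B)),
      K0.mk (⟨St.Res hN E.A, h₁, h₂⟩ : FPMod (ZG N)) = K0.mk ⟨St.Res hN E.B, h₃, h₄⟩ := by
  have hfin : Finite (FAut F) := finite_faut F
  have hAB := finrank_eq hSfin E hA hB
  have hf : Function.Injective (Subgroup.inclusion hN) := Subgroup.inclusion_injective hN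
  have key := res_eq (Subgroup.inclusion hN) hf hcyc (fun φ => by
    obtain ⟨γ, hγ, h⟩ := hfull φ
    exact ⟨⟨γ, hγ⟩, fun y => Subtype.ext (h y)⟩)
    { carrier := E.toLib.A, grp := E.toLib.grpA, mod := E.toLib.modA, fg := hA, fpd := hA' }
    { carrier := E.toLib.B, grp := E.toLib.grpB, mod := E.toLib.modB, fg := hB, fpd := hB' } hAB
  exact ⟨_, _, _, _, key⟩

end Pool.Agent.Lib.MP_0e6cae_nt.KF
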