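import Pool.Agent.Lib.MP_0e6cae_nt.KF.FreeB
import Pool.Agent.Lib.MP_0e6cae_nt.SW.Gen

/-!
A module over `𝔽_p[X]/(Φ_d)` with the automorphisms of `N` is free.
-/

open CategoryTheory Polynomial

namespace Pool.Agent.Lib.MP_0e6cae_nt.KF

variable {N : Type} [CommGroup N] [Finite N]

omit [Finite N] in
/-- the ideal `(p, Φ_d(x))` annihilates a module killed by `p` and `Φ_d(x)` -/
theorem kil_ideal (x : N) (p d : ℕ) (M : Type) [AddCommGroup M]
    [Module (MonoidAlgebra ℤ N) M] (hM : Kil x p d M) (r : MonoidAlgebra ℤ N)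
    (hr : r ∈ (Ideal.span {(p : MonoidAlgebra ℤ N),
      aeval (MonoidAlgebra.single x (1 : ℤ) : MonoidAlgebra ℤ N) (cyclotomic d ℤ)} :
        Ideal (MonoidAlgebra ℤ N))) (y : M) : r • y = 0 := by
  obtain ⟨a, b, rfl⟩ := Ideal.mem_span_pair.1 hr
  rw [add_smul, mul_smul, mul_smul, hM.2, smul_zero, add_zero, Nat.cast_smul_eq_nsmul, hM.1,
    smul_zero]

omit [Finite N] in
theorem kil_QM (x : N) (p d : ℕ) : Kil x p d (QM x p (cyclotomic d ℤ)) := by
  constructor
  · intro m
    obtain ⟨m, rfl⟩ := Ideal.Quotient.mk_surjective m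
    rw [← map_nsmul, Ideal.Quotient.eq_zero_iff_mem, nsmul_eq_mul]
    exact Ideal.mul_mem_right _ _ (Ideal.subset_span (by simp))
  · intro m
    obtain ⟨m, rfl⟩ := Ideal.Quotient.mk_surjective m
    have h1 : aeval (MonoidAlgebra.single x (1 : ℤ) : MonoidAlgebra ℤ N) (cyclotomic d ℤ) •
        (Ideal.Quotient.mk (Ideal.span {(p : MonoidAlgebra ℤ N),
      aeval (MonoidAlgebra.single x (1 : ℤ) : MonoidAlgebra ℤ N) (cyclotomic d ℤ)} :
        Ideal (MonoidAlgebra ℤ N)) m) = Ideal.Quotient.mk _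
          (aeval (MonoidAlgebra.single x (1 : ℤ) : MonoidAlgebra ℤ N) (cyclotomic d ℤ) * m) := rfl
    rw [h1, Ideal.Quotient.eq_zero_iff_mem]
    exact Ideal.mul_mem_right _ _ (Ideal.subset_span (by simp))

omit [Finite N] in
theorem kil_sub (x : N) (p d : ℕ) (M : Type) [AddCommGroup M]
    [Module (MonoidAlgebra ℤ N) M] (hM : Kil x p d M) (S : Submodule (MonoidAlgebra ℤ N) M) :
    Kil x p d S :=
  ⟨fun y => Subtype.ext (hM.1 y), fun y => Subtype.ext (hM.2 y)⟩

omit [Finite N] in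
theorem kil_pi (x : N) (p d : ℕ) (M : Type) [AddCommGroup M]
    [Module (MonoidAlgebra ℤ N) M] (hM : Kil x p d M) (k : ℕ) : Kil x p d (Fin k → M) :=
  ⟨fun y => funext fun i => hM.1 (y i), fun y => funext fun i => hM.2 (y i)⟩

omit [Finite N] in
theorem kil_surj (x : N) (p d : ℕ) (M S : Type) [AddCommGroup M]
    [Module (MonoidAlgebra ℤ N) M] [AddCommGroup S] [Module (MonoidAlgebra ℤ N) S]
    (hM : Kil x p d M) (φ : M →ₗ[MonoidAlgebra ℤ N] S) (hφ : Function.Surjective φ) :
    Kil x p d S := by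
  constructor
  · intro y
    obtain ⟨m, rfl⟩ := hφ y
    rw [← map_nsmul, hM.1, map_zero]
  · intro y
    obtain ⟨m, rfl⟩ := hφ y
    rw [← map_smul, hM.2, map_zero]

/-- (If `M = 0` take `k = 0`. Otherwise `k` with `|Hom(M, S)| = |S|^k` for one and then for every
simple `S` killed by `p` and `Φ_d(x)`; `|Hom(M, S)| = 1` for the other `S`. By `exists_gen_of_card`
there is a surjective map `ℤ[N]^k → M`, which induces `φ : D^k → M`, `D = QM x p Φ_d`. By
semisimplicity `D^k = ker φ ⊕ M`, and if `ker φ ≠ 0` it has a simple quotient `S`, and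
`|S|^k = |Hom(D^k, S)| = |Hom(ker φ, S)| |Hom(M, S)| > |S|^k`.) -/
theorem exists_free (x : N) (hx : ∀ y : N, y ∈ Subgroup.zpowers x) (p : ℕ) (hp : p.Prime)
    (hpn : ¬ p ∣ Nat.card N) (d : ℕ) (hd : d ∣ Nat.card N) (M : Type) [AddCommGroup M]
    [Module (MonoidAlgebra ℤ N) M] [Finite M] (hM : Kil x p d M) (hA : Aut x M) :
    ∃ k : ℕ, Nonempty (M ≃ₗ[MonoidAlgebra ℤ N] (Fin k → QM x p (cyclotomic d ℤ))) := by
  classical
  have hfin : ∀ (M' S' : Type) [AddCommGroup M'] [Module (MonoidAlgebra ℤ N) M'] [Finite M']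
      [AddCommGroup S'] [Module (MonoidAlgebra ℤ N) S'] [Finite S'],
      Finite (M' →ₗ[MonoidAlgebra ℤ N] S') := by
    intro M' S' _ _ _ _ _ _
    exact Finite.of_injective (fun f => (f : M' → S')) DFunLike.coe_injective
  -- the number `k`
  have hk : ∃ k : ℕ, ∀ (S : Type) [AddCommGroup S] [Module (MonoidAlgebra ℤ N) S] [Finite S],
      IsSimpleModule (MonoidAlgebra ℤ N) S → Kil x p d S →
      Nat.card (M →ₗ[MonoidAlgebra ℤ N] S) = Nat.card S ^ k := by
    by_cases hne : ∃ (S₀ : Submodule (MonoidAlgebra ℤ N) M), IsSimpleModule (MonoidAlgebra ℤ N) S₀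
    · obtain ⟨S₀, hS₀⟩ := hne
      obtain ⟨k, hk⟩ := card_hom_pow M S₀ hS₀
      refine ⟨k, fun S _ _ _ hS hS' => ?_⟩
      obtain ⟨h1, h2⟩ := card_hom_eq x hx p hp hpn d hd M hA S S₀ hS' (kil_sub x p d M hM S₀)
        hS hS₀
      rw [h2, h1, hk]
    · have hsub : Subsingleton M := by
        by_contra hns
        rw [not_subsingleton_iff_nontrivial] at hns
        have := kil_semisimple x hx p hp hpn d hd M hM
        exact hne (IsSemisimpleModule.exists_simple_submodule _ M)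
      refine ⟨0, fun S _ _ _ _ _ => ?_⟩
      rw [pow_zero, Nat.card_eq_one_iff_unique]
      exact ⟨⟨fun f g => LinearMap.ext fun y => by rw [Subsingleton.elim y 0, map_zero, map_zero]⟩,
        ⟨0⟩⟩
  obtain ⟨k, hk⟩ := hk
  refine ⟨k, ?_⟩
  -- the surjective map
  obtain ⟨φ, hφ⟩ := SW.exists_gen_of_card (A := MonoidAlgebra ℤ N) M k (by
    intro S _ _ _ hS
    by_cases hS' : Kil x p d S
    · exact (hk S hS hS').le
    · have h1 : Nat.card (M →ₗ[MonoidAlgebra ℤ N] S) = 1 := by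
        rw [Nat.card_eq_one_iff_unique]
        refine ⟨⟨fun f g => ?_⟩, ⟨0⟩⟩
        have h2 : ∀ f : M →ₗ[MonoidAlgebra ℤ N] S, f = 0 := by
          intro f
          by_contra hf
          exact hS' (kil_surj x p d M S hM f (LinearMap.surjective_of_ne_zero hf))
        rw [h2 f, h2 g]
      rw [h1]
      exact Nat.one_le_pow _ _ Nat.card_pos)
  set I : Ideal (MonoidAlgebra ℤ N) := Ideal.span {(p : MonoidAlgebra ℤ N),
      aeval (MonoidAlgebra.single x (1 : ℤ) : MonoidAlgebra ℤ N) (cyclotomic d ℤ)} with hI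
  let ψ : Fin k → (QM x p (cyclotomic d ℤ) →ₗ[MonoidAlgebra ℤ N] M) := fun i =>
    Submodule.liftQ I (LinearMap.toSpanSingleton (MonoidAlgebra ℤ N) M (φ (Pi.single i 1)))
      (fun r hr => by
        rw [LinearMap.mem_ker, LinearMap.toSpanSingleton_apply]
        exact kil_ideal x p d M hM r hr _)
  let Φ : (Fin k → QM x p (cyclotomic d ℤ)) →ₗ[MonoidAlgebra ℤ N] M :=
    ∑ i, (ψ i) ∘ₗ LinearMap.proj i
  have hΦ : ∀ a : Fin k → MonoidAlgebra ℤ N,
      Φ (fun i => Ideal.Quotient.mk I (a i)) = φ a := by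
    intro a
    have h1 : a = ∑ i, a i • (Pi.single i 1 : Fin k → MonoidAlgebra ℤ N) := by
      funext j
      simp [Finset.sum_apply, Pi.single_apply]
    conv_rhs => rw [h1, map_sum]
    rw [LinearMap.sum_apply]
    refine Finset.sum_congr rfl fun i _ => ?_
    rw [map_smul]
    rfl
  have hΦs : Function.Surjective Φ := by
    intro m
    obtain ⟨a, rfl⟩ := hφ m
    exact ⟨_, hΦ a⟩
  have hDfin : Finite (QM x p (cyclotomic d ℤ)) := (QM.fcop x p hp hpn (cyclotomic d ℤ)).1
  have hss : IsSemisimpleModule (MonoidAlgebra ℤ N) (Fin k → QM x p (cyclotomic d ℤ)) :=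
    kil_semisimple x hx p hp hpn d hd _ (kil_pi x p d _ (kil_QM x p d) k)
  have hΦi : Function.Injective Φ := by
    rw [← LinearMap.ker_eq_bot]
    by_contra hne
    have hnt : Nontrivial (LinearMap.ker Φ) := (Submodule.nontrivial_iff_ne_bot).2 hne
    obtain ⟨S', hS'⟩ := IsSemisimpleModule.exists_simple_submodule (MonoidAlgebra ℤ N)
      (LinearMap.ker Φ)
    -- the simple submodule as a submodule of `D^k`
    let S : Submodule (MonoidAlgebra ℤ N) (Fin k → QM x p (cyclotomic d ℤ)) :=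
      S'.map (LinearMap.ker Φ).subtype
    have hSle : S ≤ LinearMap.ker Φ := Submodule.map_subtype_le _ _
    have hS : IsSimpleModule (MonoidAlgebra ℤ N) S := by
      have e : S' ≃ₗ[MonoidAlgebra ℤ N] S :=
        Submodule.equivMapOfInjective _ (Submodule.injective_subtype _) S'
      exact IsSimpleModule.congr (M := S) (N := S') e.symm
    have hSk : Kil x p d S := kil_sub x p d _ (kil_pi x p d _ (kil_QM x p d) k) S
    have h1 := hk S hS hSk
    obtain ⟨C, hC⟩ := exists_isCompl S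
    let pr : (Fin k → QM x p (cyclotomic d ℤ)) →ₗ[MonoidAlgebra ℤ N] S :=
      Submodule.projectionOnto S C hC
    have hpr : ∀ s : S, pr s = s := fun s => Submodule.projectionOnto_apply_left hC s
    have hfinDS := hfin (Fin k → QM x p (cyclotomic d ℤ)) S
    have h2 : Nat.card (M →ₗ[MonoidAlgebra ℤ N] S) <
        Nat.card ((Fin k → QM x p (cyclotomic d ℤ)) →ₗ[MonoidAlgebra ℤ N] S) := by
      have hinj : Function.Injective (fun f : M →ₗ[MonoidAlgebra ℤ N] S => f ∘ₗ Φ) := by
        intro f g hfg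
        refine LinearMap.ext fun m => ?_
        obtain ⟨a, rfl⟩ := hΦs m
        exact LinearMap.congr_fun hfg a
      by_contra hlt
      obtain ⟨f, hf⟩ := (hinj.bijective_of_nat_card_le (not_lt.1 hlt)).2 pr
      have hnS := IsSimpleModule.nontrivial (MonoidAlgebra ℤ N) S
      obtain ⟨s, hs⟩ := exists_ne (0 : S)
      apply hs
      have h6 : pr s = f (Φ s) := by rw [← hf]; rfl
      rw [← hpr s, h6, LinearMap.mem_ker.1 (hSle s.2), map_zero]
    have h3 : Nat.card ((Fin k → QM x p (cyclotomic d ℤ)) →ₗ[MonoidAlgebra ℤ N] S) ≤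
        Nat.card S ^ k := by
      have h4 : Nat.card (Fin k → S) = Nat.card S ^ k := by
        rw [Nat.card_fun, Nat.card_eq_fintype_card (α := Fin k), Fintype.card_fin]
      rw [← h4]
      refine Nat.card_le_card_of_injective (fun f i => f (Pi.single i 1)) ?_
      intro f g hfg
      refine LinearMap.pi_ext fun i a => ?_
      obtain ⟨r, rfl⟩ := Ideal.Quotient.mk_surjective a
      have h5 : (Pi.single i (Ideal.Quotient.mk I r) : Fin k → QM x p (cyclotomic d ℤ)) =
          r • (Pi.single i 1 : Fin k → QM x p (cyclotomic d ℤ)) := by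
        rw [← Pi.single_smul]
        congr 1
        show _ = Ideal.Quotient.mk I (r * 1)
        rw [mul_one]
      rw [h5, map_smul, map_smul]
      exact congrArg (r • ·) (congrFun hfg i)
    omega
  exact ⟨(LinearEquiv.ofBijective Φ ⟨hΦi, hΦs⟩).symm⟩

end Pool.Agent.Lib.MP_0e6cae_nt.KF
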