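import Pool.Agent.Lib.MP_0e6cae_nt.KF.Cyc

/-!
The classes of the modules `ℤ[N]/(p, A(x))`, `N` cyclic with generator `x`, `p` prime to `|N|`.
-/

open CategoryTheory Polynomial

namespace Pool.Agent.Lib.MP_0e6cae_nt.KF

/-- A factor of `X^n - 1` is regular modulo `p`. -/
theorem cycB_key {n : ℕ} (hn : n ≠ 0) {A B : ℤ[X]} (hAB : A * B ∣ X ^ n - 1) {p : ℕ}
    (hp : p.Prime) {T : ℤ[X]} (h : C (p : ℤ) ∣ A * T) : C (p : ℤ) ∣ T := by
  have hpr : Prime (C (p : ℤ)) := Polynomial.prime_C_iff.2 (Nat.prime_iff_prime_int.1 hp)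
  refine (hpr.dvd_or_dvd h).resolve_left fun hA => ?_
  have h1 : C (p : ℤ) ∣ X ^ n - 1 := (hA.mul_right B).trans hAB
  have h2 := (Polynomial.C_dvd_iff_dvd_coeff _ _).1 h1 n
  have h3 : (X ^ n - 1 : ℤ[X]).coeff n = 1 := by
    rw [coeff_sub, coeff_X_pow_self, coeff_one, if_neg hn, sub_zero]
  rw [h3] at h2
  exact (Nat.prime_iff_prime_int.1 hp).not_isUnit (isUnit_of_dvd_one h2)

variable {N : Type} [CommGroup N] [Finite N]

theorem cycB_inj (x : N) (hx : ∀ y : N, y ∈ Subgroup.zpowers x) (p : ℕ) (hp : p.Prime)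
    (A B : ℤ[X]) (hAB : A * B ∣ X ^ Nat.card N - 1) (r : MonoidAlgebra ℤ N)
    (hr : aeval (MonoidAlgebra.single x (1 : ℤ) : MonoidAlgebra ℤ N) A * r ∈
      (Ideal.span {(p : MonoidAlgebra ℤ N),
        aeval (MonoidAlgebra.single x (1 : ℤ) : MonoidAlgebra ℤ N) (A * B)} :
          Ideal (MonoidAlgebra ℤ N))) :
    r ∈ (Ideal.span {(p : MonoidAlgebra ℤ N),
        aeval (MonoidAlgebra.single x (1 : ℤ) : MonoidAlgebra ℤ N) B} :
          Ideal (MonoidAlgebra ℤ N)) := by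
  rw [Ideal.mem_span_pair] at hr ⊢
  obtain ⟨s, u, hsu⟩ := hr
  obtain ⟨R', rfl⟩ := aeval_surj x hx r
  obtain ⟨S, rfl⟩ := aeval_surj x hx s
  obtain ⟨U, rfl⟩ := aeval_surj x hx u
  have hcp : aeval (MonoidAlgebra.single x (1 : ℤ) : MonoidAlgebra ℤ N) (C (p : ℤ)) =
      (p : MonoidAlgebra ℤ N) := by simp
  have h0 : aeval (MonoidAlgebra.single x (1 : ℤ) : MonoidAlgebra ℤ N)
      (A * R' - (S * C (p : ℤ) + U * (A * B))) = 0 := by
    rw [map_sub, map_add, map_mul _ S, map_mul _ U, map_mul _ A R', hcp, hsu, sub_self]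
  obtain ⟨W, hW⟩ := aeval_eq_zero x hx _ h0
  obtain ⟨V, hV⟩ := hAB
  have h1 : A * (R' - B * (U + V * W)) = C (p : ℤ) * S := by
    have h2 : A * R' - (S * C (p : ℤ) + U * (A * B)) = A * B * V * W := by rw [hW, hV]
    linear_combination h2
  obtain ⟨T, hT⟩ := cycB_key (Nat.card_pos (α := N)).ne' (Dvd.intro V hV.symm) hp
    (Dvd.intro S h1.symm)
  refine ⟨aeval (MonoidAlgebra.single x (1 : ℤ) : MonoidAlgebra ℤ N) T,
    aeval (MonoidAlgebra.single x (1 : ℤ) : MonoidAlgebra ℤ N) (U + V * W), ?_⟩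
  rw [← hcp, ← map_mul, ← map_mul, ← map_add]
  congr 1
  linear_combination -hT

/-- `0 → ℤ[N]/(p, B(x)) → ℤ[N]/(p, A(x) B(x)) → ℤ[N]/(p, A(x)) → 0`, the first map being the
multiplication by `A(x)`; injective by unique factorisation in `𝔽_p[X]`, because `AB` divides
`X^n - 1`. -/
theorem qcl_mul (x : N) (hx : ∀ y : N, y ∈ Subgroup.zpowers x) (p : ℕ) (hp : p.Prime)
    (hpn : ¬ p ∣ Nat.card N) (A B : ℤ[X]) (hAB : A * B ∣ X ^ Nat.card N - 1) :
    qcl x p hp hpn (A * B) = qcl x p hp hpn A + qcl x p hp hpn B := by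
  set a := aeval (MonoidAlgebra.single x (1 : ℤ) : MonoidAlgebra ℤ N) A with ha
  set b := aeval (MonoidAlgebra.single x (1 : ℤ) : MonoidAlgebra ℤ N) B with hb
  have hab : aeval (MonoidAlgebra.single x (1 : ℤ) : MonoidAlgebra ℤ N) (A * B) = a * b :=
    map_mul _ _ _
  let IA : Ideal (MonoidAlgebra ℤ N) := Ideal.span {(p : MonoidAlgebra ℤ N),
    aeval (MonoidAlgebra.single x (1 : ℤ) : MonoidAlgebra ℤ N) A}
  let IB : Ideal (MonoidAlgebra ℤ N) := Ideal.span {(p : MonoidAlgebra ℤ N),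
    aeval (MonoidAlgebra.single x (1 : ℤ) : MonoidAlgebra ℤ N) B}
  let IAB : Ideal (MonoidAlgebra ℤ N) := Ideal.span {(p : MonoidAlgebra ℤ N),
    aeval (MonoidAlgebra.single x (1 : ℤ) : MonoidAlgebra ℤ N) (A * B)}
  have h1 : IB ≤ Submodule.comap (LinearMap.mulLeft (MonoidAlgebra ℤ N) a) IAB := by
    intro y hy
    obtain ⟨s, u, rfl⟩ := Ideal.mem_span_pair.1 hy
    refine Ideal.mem_span_pair.2 ⟨a * s, u, ?_⟩
    rw [hab, LinearMap.mulLeft_apply]
    ring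
  have h2 : IAB ≤ IA := by
    intro y hy
    obtain ⟨s, u, rfl⟩ := Ideal.mem_span_pair.1 hy
    refine Ideal.mem_span_pair.2 ⟨s, u * b, ?_⟩
    rw [hab]
    ring
  let f : (MonoidAlgebra ℤ N ⧸ IB) →ₗ[MonoidAlgebra ℤ N] (MonoidAlgebra ℤ N ⧸ IAB) :=
    Submodule.mapQ IB IAB (LinearMap.mulLeft (MonoidAlgebra ℤ N) a) h1
  let g : (MonoidAlgebra ℤ N ⧸ IAB) →ₗ[MonoidAlgebra ℤ N] (MonoidAlgebra ℤ N ⧸ IA) :=
    Submodule.factor h2
  have hf : Function.Injective f := by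
    rw [injective_iff_map_eq_zero]
    intro y hy
    obtain ⟨y, rfl⟩ := Submodule.Quotient.mk_surjective _ y
    have h3 : (Submodule.Quotient.mk (a * y) : MonoidAlgebra ℤ N ⧸ IAB) = 0 := hy
    rw [Submodule.Quotient.mk_eq_zero] at h3
    rw [Submodule.Quotient.mk_eq_zero]
    exact cycB_inj x hx p hp A B hAB y h3
  have hg : Function.Surjective g := by
    intro y
    obtain ⟨y, rfl⟩ := Submodule.Quotient.mk_surjective _ y
    exact ⟨Submodule.Quotient.mk y, rfl⟩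
  have hfg : Function.Exact f g := by
    intro y
    obtain ⟨y, rfl⟩ := Submodule.Quotient.mk_surjective _ y
    constructor
    · intro hy
      have h3 : (Submodule.Quotient.mk y : MonoidAlgebra ℤ N ⧸ IA) = 0 := hy
      rw [Submodule.Quotient.mk_eq_zero] at h3
      obtain ⟨s, u, rfl⟩ := Ideal.mem_span_pair.1 h3
      refine ⟨Submodule.Quotient.mk u, ?_⟩
      change (Submodule.Quotient.mk (a * u) : MonoidAlgebra ℤ N ⧸ IAB) = _
      rw [Submodule.Quotient.eq]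
      refine Ideal.mem_span_pair.2 ⟨-s, 0, ?_⟩
      rw [← ha]
      ring
    · rintro ⟨z, hz⟩
      obtain ⟨z, rfl⟩ := Submodule.Quotient.mk_surjective _ z
      rw [← hz]
      change (Submodule.Quotient.mk (a * z) : MonoidAlgebra ℤ N ⧸ IA) = 0
      rw [Submodule.Quotient.mk_eq_zero]
      exact Ideal.mem_span_pair.2 ⟨0, z, by rw [← ha]; ring⟩
  unfold qcl
  rw [add_comm]
  exact fcl_exact _ _ _ f g hf hfg hg

end Pool.Agent.Lib.MP_0e6cae_nt.KF
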