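import Pool.Agent.Lib.MP_0e6cae_nt.KF.FreeB

/-!
The submodule of the elements killed by `p` and `Φ_d(x)` is stable under the automorphisms.
-/

open CategoryTheory Polynomial

namespace Pool.Agent.Lib.MP_0e6cae_nt.KF

variable {N : Type} [CommGroup N] [Finite N]

/-- The submodule of the elements killed by `p` and `Φ_d(x)`. -/
noncomputable def sub (x : N) (p d : ℕ) (M : Type) [AddCommGroup M]
    [Module (MonoidAlgebra ℤ N) M] : Submodule (MonoidAlgebra ℤ N) M where
  carrier := {y | p • y = 0 ∧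
    aeval (MonoidAlgebra.single x (1 : ℤ) : MonoidAlgebra ℤ N) (cyclotomic d ℤ) • y = 0}
  add_mem' := by
    rintro a b ⟨h1, h2⟩ ⟨h3, h4⟩
    exact ⟨by rw [smul_add, h1, h3, add_zero], by rw [smul_add, h2, h4, add_zero]⟩
  zero_mem' := ⟨smul_zero _, smul_zero _⟩
  smul_mem' := by
    rintro c a ⟨h1, h2⟩
    exact ⟨by rw [smul_comm, h1, smul_zero], by rw [smul_comm, h2, smul_zero]⟩

theorem sub_cyclotomic_dvd (d b : ℕ) (hd : 0 < d) (hb : b.Coprime d) :
    cyclotomic d ℤ ∣ expand ℤ b (cyclotomic d ℤ) := by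
  have hζ := Complex.isPrimitiveRoot_exp d hd.ne'
  set ζ := Complex.exp (2 * Real.pi * Complex.I / d) with hζd
  rw [cyclotomic_eq_minpoly hζ hd]
  refine minpoly.isIntegrallyClosed_dvd (hζ.isIntegral hd) ?_
  rw [expand_aeval, ← cyclotomic_eq_minpoly hζ hd,
    cyclotomic_eq_minpoly (hζ.pow_of_coprime b hb) hd]
  exact minpoly.aeval ℤ _

/-- (`Φ_d(X)` divides `Φ_d(X^b)` for `b` prime to `d`; `b` the inverse of `a` modulo `|N|`.) -/
theorem sub_map (x : N) (hx : ∀ y : N, y ∈ Subgroup.zpowers x) (p d : ℕ) (hd : d ∣ Nat.card N)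
    (M : Type) [AddCommGroup M] [Module (MonoidAlgebra ℤ N) M] (a : ℕ)
    (ha : a.Coprime (Nat.card N)) (f : M ≃+ M) (hf : ∀ y : M,
      f ((MonoidAlgebra.single x (1 : ℤ) : MonoidAlgebra ℤ N) • y) =
        (MonoidAlgebra.single x (1 : ℤ) : MonoidAlgebra ℤ N) ^ a • f y) (y : M)
    (hy : y ∈ sub x p d M) : f y ∈ sub x p d M := by
  have hord : orderOf x = Nat.card N := orderOf_eq_card_of_forall_mem_zpowers hx
  have hd0 : 0 < d := Nat.pos_of_dvd_of_pos hd Nat.card_pos
  obtain ⟨b, hb⟩ := exists_pow_eq_self_of_coprime (x := x) (n := a) (by rw [hord]; exact ha)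
  have hab : a * b ≡ 1 [MOD Nat.card N] := by
    rw [← hord, ← pow_eq_pow_iff_modEq, pow_mul, hb, pow_one]
  have hbn : b.Coprime (Nat.card N) := by
    have h1 : (a * b).Coprime (Nat.card N) := by
      rw [Nat.Coprime, hab.gcd_eq, Nat.gcd_one_left]
    exact Nat.Coprime.coprime_mul_left h1
  have hbd : b.Coprime d := Nat.Coprime.coprime_dvd_right hd hbn
  set s : MonoidAlgebra ℤ N := MonoidAlgebra.single x (1 : ℤ) with hs
  have hsab : (s ^ a) ^ b = s := by
    rw [hs, MonoidAlgebra.single_pow, one_pow, MonoidAlgebra.single_pow, one_pow, hb]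
  have hpow : ∀ (j : ℕ) (z : M), f (s ^ j • z) = (s ^ a) ^ j • f z := by
    intro j
    induction j with
    | zero => intro z; rw [pow_zero, pow_zero, one_smul, one_smul]
    | succ j ih => intro z; rw [pow_succ, mul_smul, ih, hf, pow_succ, mul_smul]
  have hpoly : ∀ (P : ℤ[X]) (z : M), f (aeval (s ^ b) P • z) = aeval s P • f z := by
    intro P
    induction P using Polynomial.induction_on' with
    | add P Q hP hQ =>
      intro z
      rw [map_add, map_add, add_smul, add_smul, map_add, hP, hQ]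
    | monomial m c =>
      intro z
      rw [aeval_monomial, aeval_monomial, ← Algebra.smul_def, ← Algebra.smul_def, smul_assoc,
        smul_assoc, map_zsmul, ← pow_mul, hpow, pow_mul, hsab]
  obtain ⟨h1, h2⟩ := hy
  refine ⟨by rw [← map_nsmul, h1, map_zero], ?_⟩
  rw [← hpoly]
  obtain ⟨Q, hQ⟩ := sub_cyclotomic_dvd d b hd0 hbd
  rw [← expand_aeval, hQ, map_mul, mul_comm, mul_smul, h2, smul_zero, map_zero]

theorem sub_aut (x : N) (hx : ∀ y : N, y ∈ Subgroup.zpowers x) (p d : ℕ) (hd : d ∣ Nat.card N)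
    (M : Type) [AddCommGroup M] [Module (MonoidAlgebra ℤ N) M] [Finite M] (hA : Aut x M) :
    Aut x (sub x p d M) ∧ Aut x (M ⧸ sub x p d M) := by
  constructor
  · intro a ha
    obtain ⟨f, hf⟩ := hA a ha
    have hm := sub_map x hx p d hd M a ha f hf
    let g : sub x p d M →+ sub x p d M :=
      { toFun := fun y => ⟨f y.1, hm y.1 y.2⟩
        map_zero' := Subtype.ext (map_zero f)
        map_add' := fun y z => Subtype.ext (map_add f y.1 z.1) }
    have hg : Function.Injective g := fun y z hyz =>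
      Subtype.ext (f.injective (congrArg Subtype.val hyz))
    refine ⟨AddEquiv.ofBijective g ⟨hg, Finite.surjective_of_injective hg⟩, fun y => ?_⟩
    exact Subtype.ext (hf y.1)
  · intro a ha
    obtain ⟨f, hf⟩ := hA a ha
    have hm := sub_map x hx p d hd M a ha f hf
    let g : (M ⧸ sub x p d M) →+ (M ⧸ sub x p d M) :=
      QuotientAddGroup.lift (sub x p d M).toAddSubgroup
        ((sub x p d M).mkQ.toAddMonoidHom.comp f.toAddMonoidHom) (by
          intro y hy
          exact (Submodule.Quotient.mk_eq_zero _).2 (hm y hy))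
    have hgm : ∀ y : M, g (Submodule.Quotient.mk y) = Submodule.Quotient.mk (f y) := fun y => rfl
    have hg : Function.Surjective g := by
      intro q
      obtain ⟨y, rfl⟩ := Submodule.Quotient.mk_surjective _ q
      exact ⟨Submodule.Quotient.mk (f.symm y), by rw [hgm, AddEquiv.apply_symm_apply]⟩
    have hfinQ : Finite (M ⧸ sub x p d M) :=
      Finite.of_surjective _ (Submodule.Quotient.mk_surjective (sub x p d M))
    refine ⟨AddEquiv.ofBijective g ⟨Finite.injective_iff_surjective.2 hg, hg⟩, fun q => ?_⟩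
    obtain ⟨y, rfl⟩ := Submodule.Quotient.mk_surjective _ q
    rw [AddEquiv.ofBijective_apply, AddEquiv.ofBijective_apply, hgm,
      ← Submodule.Quotient.mk_smul, hgm, hf, Submodule.Quotient.mk_smul]

/-- (A prime divisor `p` of `|M|`; on the nonzero submodule of the elements killed by `p` the
product of the `Φ_d(x)`, `d ∣ |N|`, is zero.) -/
theorem exists_sub (x : N) (M : Type) [AddCommGroup M] [Module (MonoidAlgebra ℤ N) M] [Finite M]
    [Nontrivial M] : ∃ (p d : ℕ), p.Prime ∧ p ∣ Nat.card M ∧ d ∣ Nat.card N ∧ sub x p d M ≠ ⊥ := by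
  have hM1 : Nat.card M ≠ 1 := (Finite.one_lt_card (α := M)).ne'
  obtain ⟨p, hp, hpM⟩ := Nat.exists_prime_and_dvd hM1
  have := Fact.mk hp
  obtain ⟨y, hy⟩ := exists_prime_addOrderOf_dvd_card' p hpM
  have hy0 : y ≠ 0 := by
    rintro rfl
    rw [addOrderOf_zero] at hy
    exact hp.one_lt.ne hy
  have hpy : p • y = 0 := by
    rw [← hy]
    exact addOrderOf_nsmul_eq_zero y
  set s : MonoidAlgebra ℤ N := MonoidAlgebra.single x (1 : ℤ) with hs
  have key : ∀ t : Finset ℕ, t ⊆ (Nat.card N).divisors → ∀ z : M, z ≠ 0 → p • z = 0 →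
      aeval s (∏ d ∈ t, cyclotomic d ℤ) • z = 0 → ∃ d ∈ (Nat.card N).divisors,
        sub x p d M ≠ ⊥ := by
    intro t
    induction t using Finset.induction_on with
    | empty =>
      intro _ z hz _ h0
      rw [Finset.prod_empty, map_one, one_smul] at h0
      exact absurd h0 hz
    | insert a t ha ih =>
      intro ht z hz hpz h0
      by_cases h1 : aeval s (∏ d ∈ t, cyclotomic d ℤ) • z = 0
      · exact ih ((Finset.subset_insert a t).trans ht) z hz hpz h1
      · refine ⟨a, ht (Finset.mem_insert_self a t), ?_⟩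
        rw [Submodule.ne_bot_iff]
        refine ⟨aeval s (∏ d ∈ t, cyclotomic d ℤ) • z, ⟨?_, ?_⟩, h1⟩
        · rw [smul_comm, hpz, smul_zero]
        · rw [Finset.prod_insert ha, map_mul, mul_smul] at h0
          exact h0
  obtain ⟨d, hd, hne⟩ := key (Nat.card N).divisors subset_rfl y hy0 hpy (by
    rw [prod_cyclotomic_eq_X_pow_sub_one Nat.card_pos, map_sub, map_pow, aeval_X, map_one, hs,
      MonoidAlgebra.single_pow, one_pow, pow_card_eq_one', MonoidAlgebra.one_def, sub_self,
      zero_smul])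
  exact ⟨p, d, hp, hpM, Nat.dvd_of_mem_divisors hd, hne⟩

end Pool.Agent.Lib.MP_0e6cae_nt.KF
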