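import Pool.Agent.Lib.MP_0e6cae_nt.KF.Fpd

/-!
The classes of finite modules of order prime to the order of the group.
-/

open CategoryTheory

namespace Pool.Agent.Lib.MP_0e6cae_nt.KF

/-- `M` is finite of order prime to the order of `N`. -/
def FCop (N M : Type) : Prop := Finite M ∧ (Nat.card M).Coprime (Nat.card N)

theorem FCop.inj {N M M' : Type} [AddCommGroup M] [AddCommGroup M'] (h : FCop N M) (f : M' →+ M)
    (hf : Function.Injective f) : FCop N M' := by
  have h1 := h.1
  exact ⟨Finite.of_injective f hf,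
    Nat.Coprime.coprime_dvd_left (AddSubgroup.card_dvd_of_injective f hf) h.2⟩

theorem FCop.surj {N M M' : Type} [AddCommGroup M] [AddCommGroup M'] (h : FCop N M) (f : M →+ M')
    (hf : Function.Surjective f) : FCop N M' := by
  have h1 := h.1
  exact ⟨Finite.of_surjective f hf,
    Nat.Coprime.coprime_dvd_left (AddSubgroup.card_dvd_of_surjective f hf) h.2⟩

theorem FCop.pi {N M : Type} (h : FCop N M) (k : ℕ) : FCop N (Fin k → M) := by
  have h1 := h.1
  refine ⟨inferInstance, ?_⟩
  rw [Nat.card_fun, Nat.card_eq_fintype_card (α := Fin k), Fintype.card_fin]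
  exact Nat.Coprime.pow_left k h.2

/-- The class of a finite module of order prime to the order of `N`. -/
noncomputable def fcl (N : Type) [Group N] [Finite N] (M : Type) [AddCommGroup M]
    [Module (MonoidAlgebra ℤ N) M] (h : FCop N M) : K0 (MonoidAlgebra ℤ N) :=
  K0.mk
    { carrier := M
      fg := by
        have := h.1
        exact Module.Finite.of_finite
      fpd := by
        have := h.1
        exact fpd_of_coprime M h.2 }

variable {N : Type} [Group N] [Finite N]

theorem fcl_exact {M' M M'' : Type} [AddCommGroup M'] [Module (MonoidAlgebra ℤ N) M']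
    [AddCommGroup M] [Module (MonoidAlgebra ℤ N) M] [AddCommGroup M'']
    [Module (MonoidAlgebra ℤ N) M''] (h' : FCop N M') (h : FCop N M) (h'' : FCop N M'')
    (f : M' →ₗ[MonoidAlgebra ℤ N] M) (g : M →ₗ[MonoidAlgebra ℤ N] M'')
    (hf : Function.Injective f) (hfg : Function.Exact f g) (hg : Function.Surjective g) :
    fcl N M h = fcl N M' h' + fcl N M'' h'' := by
  unfold fcl
  exact K0.mk_exact f g hf hfg hg

theorem fcl_equiv {M M' : Type} [AddCommGroup M'] [Module (MonoidAlgebra ℤ N) M']
    [AddCommGroup M] [Module (MonoidAlgebra ℤ N) M] (h : FCop N M) (h' : FCop N M')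
    (e : M ≃ₗ[MonoidAlgebra ℤ N] M') : fcl N M h = fcl N M' h' := by
  unfold fcl
  exact K0.mk_equiv e

theorem fcl_zero {M : Type} [AddCommGroup M] [Module (MonoidAlgebra ℤ N) M] [Subsingleton M]
    (h : FCop N M) : fcl N M h = 0 := by
  have h1 := fcl_exact h h h (LinearMap.id : M →ₗ[MonoidAlgebra ℤ N] M) 0
    Function.injective_id (fun x => ⟨fun _ => ⟨x, rfl⟩, fun _ => rfl⟩)
    (fun x => ⟨0, Subsingleton.elim _ _⟩)
  exact left_eq_add.1 h1

theorem fcl_pi {M : Type} [AddCommGroup M] [Module (MonoidAlgebra ℤ N) M] (h : FCop N M) (k : ℕ)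
    (h' : FCop N (Fin k → M)) : fcl N (Fin k → M) h' = k • fcl N M h := by
  induction k with
  | zero => rw [fcl_zero, zero_smul]
  | succ k ih =>
    have h1 : FCop N (Fin k → M) := h.pi k
    have e := Fin.consLinearEquiv (MonoidAlgebra ℤ N) (fun _ : Fin (k + 1) => M)
    have h2 : FCop N (M × (Fin k → M)) := h'.inj e.toLinearMap.toAddMonoidHom e.injective
    rw [← fcl_equiv h2 h' e, fcl_exact h h2 h1 (LinearMap.inl _ M (Fin k → M))
      (LinearMap.snd _ M (Fin k → M)) LinearMap.inl_injective Function.Exact.inl_snd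
      LinearMap.snd_surjective, ih h1, succ_nsmul, add_comm]

/-- A quotient of `ℤ[N]` by a free submodule of rank one. -/
theorem fcl_regular {Q : Type} [AddCommGroup Q] [Module (MonoidAlgebra ℤ N) Q] (h : FCop N Q)
    (f : MonoidAlgebra ℤ N →ₗ[MonoidAlgebra ℤ N] MonoidAlgebra ℤ N)
    (g : MonoidAlgebra ℤ N →ₗ[MonoidAlgebra ℤ N] Q)
    (hf : Function.Injective f) (hfg : Function.Exact f g) (hg : Function.Surjective g) :
    fcl N Q h = 0 := by
  have hfin := h.1
  have h1 := K0.mk_exact
    (M' := FPMod.ofProj (MonoidAlgebra ℤ N) (MonoidAlgebra ℤ N))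
    (M := FPMod.ofProj (MonoidAlgebra ℤ N) (MonoidAlgebra ℤ N))
    (M'' := { carrier := Q
              fg := Module.Finite.of_finite
              fpd := fpd_of_coprime Q h.2 })
    f g hf hfg hg
  exact left_eq_add.1 h1

/-- Principal ideals: `0 → ℤ[N] → ℤ[N] → ℤ[N]/(v) → 0`; multiplication by `v` is injective because
its cokernel is finite. -/
theorem fcl_span {N : Type} [CommGroup N] [Finite N] (v : MonoidAlgebra ℤ N)
    (h : FCop N (MonoidAlgebra ℤ N ⧸ Ideal.span {v})) :
    fcl N (MonoidAlgebra ℤ N ⧸ Ideal.span {v}) h = 0 := by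
  have hfin := h.1
  -- the order of the quotient is a multiple of `v`
  obtain ⟨w, hw⟩ : ∃ w, w * v =
      (Nat.card (MonoidAlgebra ℤ N ⧸ Ideal.span {v}) : MonoidAlgebra ℤ N) := by
    refine Ideal.mem_span_singleton'.1 ?_
    rw [← Ideal.Quotient.eq_zero_iff_mem, map_natCast, ← nsmul_one]
    exact card_nsmul_eq_zero'
  have hinj : Function.Injective (LinearMap.toSpanSingleton (MonoidAlgebra ℤ N)
      (MonoidAlgebra ℤ N) v) := by
    rw [injective_iff_map_eq_zero]
    intro x hx
    have h1 : x * v = 0 := hx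
    have h2 : (Nat.card (MonoidAlgebra ℤ N ⧸ Ideal.span {v})) • x = 0 := by
      rw [nsmul_eq_mul, ← hw, mul_assoc, mul_comm v x, h1, mul_zero]
    ext a
    let φ : MonoidAlgebra ℤ N →+ ℤ :=
      { toFun := fun y => y.coeff a
        map_zero' := by simp
        map_add' := fun y z => by simp }
    have h3 : (Nat.card (MonoidAlgebra ℤ N ⧸ Ideal.span {v})) • x.coeff a = 0 := by
      have h4 := map_nsmul φ (Nat.card (MonoidAlgebra ℤ N ⧸ Ideal.span {v})) x
      rw [h2, map_zero] at h4
      exact h4.symm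
    exact (smul_eq_zero.1 h3).resolve_left Nat.card_pos.ne'
  have hex : Function.Exact (LinearMap.toSpanSingleton (MonoidAlgebra ℤ N)
      (MonoidAlgebra ℤ N) v) (Submodule.mkQ (Ideal.span {v})) := by
    intro y
    rw [Submodule.mkQ_apply, Submodule.Quotient.mk_eq_zero, Ideal.mem_span_singleton']
    exact Iff.rfl
  let f : MonoidAlgebra ℤ N →ₗ[MonoidAlgebra ℤ N] MonoidAlgebra ℤ N :=
    LinearMap.toSpanSingleton (MonoidAlgebra ℤ N) (MonoidAlgebra ℤ N) v
  let g : MonoidAlgebra ℤ N →ₗ[MonoidAlgebra ℤ N] (MonoidAlgebra ℤ N ⧸ Ideal.span {v}) :=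
    Submodule.mkQ (Ideal.span {v})
  exact fcl_regular h f g hinj hex (Submodule.mkQ_surjective _)

end Pool.Agent.Lib.MP_0e6cae_nt.KF
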