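import Pool.Agent.Lib.MP_0e6cae_nt.KF.FreeA

/-!
The simple modules over `𝔽_p[X]/(Φ_d)` are conjugate.
-/

open CategoryTheory Polynomial

namespace Pool.Agent.Lib.MP_0e6cae_nt.KF

variable {N : Type} [CommGroup N] [Finite N]

theorem exists_lift_coprime (n d i : ℕ) (hn : n ≠ 0) (hd : d ∣ n) (hi : i.Coprime d) :
    ∃ a : ℕ, a.Coprime n ∧ a ≡ i [MOD d] := by
  have hn' : NeZero n := ⟨hn⟩
  obtain ⟨v, hv⟩ := ZMod.unitsMap_surjective hd (ZMod.unitOfCoprime i hi)
  refine ⟨(v : ZMod n).val, ZMod.val_coe_unit_coprime v, ?_⟩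
  have h1 : ((ZMod.unitsMap hd v : (ZMod d)ˣ) : ZMod d) = (i : ZMod d) := by
    rw [hv, ZMod.coe_unitOfCoprime]
  rw [ZMod.unitsMap_val] at h1
  rw [← ZMod.natCast_eq_natCast_iff, ← h1, ZMod.natCast_val]

/-- A simple module killed by `p` is a subfield of the algebraic closure of `𝔽_p`. -/
theorem exists_emb (p : ℕ) [Fact p.Prime] (S : Type) [AddCommGroup S]
    [Module (MonoidAlgebra ℤ N) S] (hS : ∀ y : S, p • y = 0)
    (h : IsSimpleModule (MonoidAlgebra ℤ N) S) :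
    ∃ (f : MonoidAlgebra ℤ N →+* AlgebraicClosure (ZMod p)) (j : S →+ AlgebraicClosure (ZMod p)),
      Function.Injective j ∧ (∀ r y, j (r • y) = f r * j y) ∧ (∃ y, j y ≠ 0) ∧
      ∀ z, (∃ y, j y = z) ↔ ∃ r, f r = z := by
  obtain ⟨I, hI, ⟨e⟩⟩ := isSimpleModule_iff_quot_maximal.1 h
  let _ : Field (MonoidAlgebra ℤ N ⧸ I) := Ideal.Quotient.field I
  have hp0 : ∀ k : MonoidAlgebra ℤ N ⧸ I, p • k = 0 := by
    intro k
    have h1 := hS (e.symm k)
    rw [← map_nsmul] at h1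
    exact (LinearEquiv.map_eq_zero_iff e.symm).1 h1
  have hchar : CharP (MonoidAlgebra ℤ N ⧸ I) p := by
    have h1 : ((p : ℕ) : MonoidAlgebra ℤ N ⧸ I) = 0 := by
      have h2 := hp0 1
      rwa [nsmul_eq_mul, mul_one] at h2
    exact (CharP.charP_iff_prime_eq_zero Fact.out).2 h1
  have hfin : Finite (MonoidAlgebra ℤ N ⧸ I) := by
    have h0 : Module.Finite ℤ (MonoidAlgebra ℤ N ⧸ I) := by
      have h1 : Function.Surjective (Ideal.Quotient.mk I).toAddMonoidHom.toIntLinearMap :=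
        Ideal.Quotient.mk_surjective
      exact Module.Finite.of_surjective _ h1
    refine Module.finite_of_fg_torsion _ fun {y} => ⟨⟨(p : ℤ), ?_⟩, ?_⟩
    · exact mem_nonZeroDivisors_of_ne_zero
        (by exact_mod_cast (Fact.out : p.Prime).ne_zero)
    · change (p : ℤ) • y = 0
      rw [natCast_zsmul]
      exact hp0 y
  let _ : Algebra (ZMod p) (MonoidAlgebra ℤ N ⧸ I) := ZMod.algebra _ p
  have hmf : Module.Finite (ZMod p) (MonoidAlgebra ℤ N ⧸ I) := Module.Finite.of_finite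
  have halg : Algebra.IsAlgebraic (ZMod p) (MonoidAlgebra ℤ N ⧸ I) := Algebra.IsAlgebraic.of_finite _ _
  let φ : (MonoidAlgebra ℤ N ⧸ I) →ₐ[ZMod p] AlgebraicClosure (ZMod p) := IsAlgClosed.lift
  let f : MonoidAlgebra ℤ N →+* AlgebraicClosure (ZMod p) :=
    (φ : (MonoidAlgebra ℤ N ⧸ I) →+* AlgebraicClosure (ZMod p)).comp (Ideal.Quotient.mk I)
  let j : S →+ AlgebraicClosure (ZMod p) :=
    (φ : (MonoidAlgebra ℤ N ⧸ I) →+* AlgebraicClosure (ZMod p)).toAddMonoidHom.comp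
      e.toLinearMap.toAddMonoidHom
  have hφ : Function.Injective φ := φ.toRingHom.injective
  have hj : Function.Injective j := hφ.comp e.injective
  refine ⟨f, j, hj, ?_, ?_, ?_⟩
  · intro r y
    change φ (e (r • y)) = φ (Ideal.Quotient.mk I r) * φ (e y)
    rw [← map_mul, map_smul]
    rfl
  · refine ⟨e.symm 1, ?_⟩
    change φ (e (e.symm 1)) ≠ 0
    rw [LinearEquiv.apply_symm_apply, map_one]
    exact one_ne_zero
  · intro z
    constructor
    · rintro ⟨y, rfl⟩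
      obtain ⟨r, hr⟩ := Ideal.Quotient.mk_surjective (e y)
      refine ⟨r, ?_⟩
      change φ (Ideal.Quotient.mk I r) = φ (e y)
      rw [hr]
    · rintro ⟨r, rfl⟩
      refine ⟨e.symm (Ideal.Quotient.mk I r), ?_⟩
      change φ (e (e.symm (Ideal.Quotient.mk I r))) = φ (Ideal.Quotient.mk I r)
      rw [LinearEquiv.apply_symm_apply]

theorem range_le (x : N) (hx : ∀ y : N, y ∈ Subgroup.zpowers x) {Ω : Type} [Field Ω]
    (f f' : MonoidAlgebra ℤ N →+* Ω) (i : ℕ)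
    (hi : f (MonoidAlgebra.single x 1) ^ i = f' (MonoidAlgebra.single x 1)) (z : Ω)
    (hz : ∃ r, f' r = z) : ∃ r, f r = z := by
  obtain ⟨r, rfl⟩ := hz
  obtain ⟨A, rfl⟩ := aeval_surj x hx r
  refine ⟨aeval ((MonoidAlgebra.single x (1 : ℤ) : MonoidAlgebra ℤ N) ^ i) A, ?_⟩
  have h1 : ∀ (g : MonoidAlgebra ℤ N →+* Ω) (u : MonoidAlgebra ℤ N), g (aeval u A) = aeval (g u) A :=
    fun g u => (aeval_algHom_apply g.toIntAlgHom u A).symm
  rw [h1, h1, map_pow, hi]

/-- (`S = K`, `S' = K'` are finite fields, generated by the roots `ζ`, `ζ'` of `Φ_d` (primitive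
`d`-th roots of unity), of the same degree (the order of `p` modulo `d`) over `𝔽_p`; under an
isomorphism `K' → K` the element `ζ'` goes to a primitive `d`-th root of unity, `ζ^a` with `a`
prime to `d`; `a` can be chosen prime to `|N|` (`ZMod.unitsMap_surjective`).) -/
theorem kil_conj (x : N) (hx : ∀ y : N, y ∈ Subgroup.zpowers x) (p : ℕ) (hp : p.Prime)
    (hpn : ¬ p ∣ Nat.card N) (d : ℕ) (hd : d ∣ Nat.card N)
    (S S' : Type) [AddCommGroup S] [Module (MonoidAlgebra ℤ N) S] [AddCommGroup S']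
    [Module (MonoidAlgebra ℤ N) S'] (hS : Kil x p d S) (hS' : Kil x p d S')
    (h : IsSimpleModule (MonoidAlgebra ℤ N) S) (h' : IsSimpleModule (MonoidAlgebra ℤ N) S') :
    ∃ a : ℕ, a.Coprime (Nat.card N) ∧ ∃ τ : S' ≃+ S, ∀ y : S',
      τ ((MonoidAlgebra.single x (1 : ℤ) : MonoidAlgebra ℤ N) • y) =
        (MonoidAlgebra.single x (1 : ℤ) : MonoidAlgebra ℤ N) ^ a • τ y := by
  have hfact : Fact p.Prime := ⟨hp⟩
  obtain ⟨f, j, hj, hj1, hj2, hj3⟩ := exists_emb p S hS.1 h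
  obtain ⟨f', j', hj', hj1', hj2', hj3'⟩ := exists_emb p S' hS'.1 h'
  have hd0 : d ≠ 0 := by
    rintro rfl
    exact Nat.card_pos.ne' (zero_dvd_iff.1 hd)
  have hdz : NeZero d := ⟨hd0⟩
  have hdp : NeZero ((d : ℕ) : AlgebraicClosure (ZMod p)) := ⟨by
    intro h0
    exact hpn (((CharP.cast_eq_zero_iff (AlgebraicClosure (ZMod p)) p d).1 h0).trans hd)⟩
  have key : ∀ (T : Type) [AddCommGroup T] [Module (MonoidAlgebra ℤ N) T], Kil x p d T →
      ∀ (g : MonoidAlgebra ℤ N →+* AlgebraicClosure (ZMod p))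
        (k : T →+ AlgebraicClosure (ZMod p)), (∀ r y, k (r • y) = g r * k y) → (∃ y, k y ≠ 0) →
      IsPrimitiveRoot (g (MonoidAlgebra.single x 1)) d := by
    intro T _ _ hT g k hk1 hk2
    obtain ⟨y, hy⟩ := hk2
    have h1 := hk1 (aeval (MonoidAlgebra.single x (1 : ℤ) : MonoidAlgebra ℤ N) (cyclotomic d ℤ)) y
    rw [hT.2 y, map_zero] at h1
    have h2 := (mul_eq_zero.1 h1.symm).resolve_right hy
    have h3 : g (aeval (MonoidAlgebra.single x (1 : ℤ) : MonoidAlgebra ℤ N) (cyclotomic d ℤ)) =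
        aeval (g (MonoidAlgebra.single x 1)) (cyclotomic d ℤ) :=
      (aeval_algHom_apply g.toIntAlgHom _ _).symm
    rw [h3] at h2
    rw [← isRoot_cyclotomic_iff, IsRoot.def, ← map_cyclotomic_int, Polynomial.eval_map]
    exact h2
  have h1 := key S hS f j hj1 hj2
  have h2 := key S' hS' f' j' hj1' hj2'
  obtain ⟨i, -, hi, hi2⟩ := h1.isPrimitiveRoot_iff.1 h2
  obtain ⟨i', -, hi', hi2'⟩ := h2.isPrimitiveRoot_iff.1 h1
  obtain ⟨a, ha, ha2⟩ := exists_lift_coprime (Nat.card N) d i Nat.card_pos.ne' hd hi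
  have ha3 : f (MonoidAlgebra.single x 1) ^ a = f' (MonoidAlgebra.single x 1) := by
    rw [← hi2, pow_eq_pow_mod a h1.pow_eq_one, pow_eq_pow_mod i h1.pow_eq_one]
    rw [show a % d = i % d from ha2]
  have hr : j'.range = j.range := by
    ext z
    rw [AddMonoidHom.mem_range, AddMonoidHom.mem_range, hj3, hj3']
    exact ⟨range_le x hx f f' i hi2 z, range_le x hx f' f i' hi2' z⟩
  let τ : S' ≃+ S := (AddMonoidHom.ofInjective hj').trans
    ((AddEquiv.addSubgroupCongr hr).trans (AddMonoidHom.ofInjective hj).symm)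
  have hτ : ∀ y, j (τ y) = j' y := by
    intro y
    have h5 := (AddMonoidHom.ofInjective hj).apply_symm_apply
      (AddEquiv.addSubgroupCongr hr (AddMonoidHom.ofInjective hj' y))
    exact congrArg Subtype.val h5
  refine ⟨a, ha, τ, fun y => hj ?_⟩
  rw [hτ, hj1', hj1, hτ, map_pow, ha3]

end Pool.Agent.Lib.MP_0e6cae_nt.KF
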