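import Pool.Agent.Lib.MP_0e6cae_nt.KF.Cls

/-!
The classes of the modules `ℤ[N]/(p, A(x))`, `N` cyclic with generator `x`, `p` prime to `|N|`.
-/

open CategoryTheory Polynomial

namespace Pool.Agent.Lib.MP_0e6cae_nt.KF

/-- The module `ℤ[N]/(p, A(x))`. -/
abbrev QM {N : Type} [CommGroup N] (x : N) (p : ℕ) (A : ℤ[X]) : Type :=
  MonoidAlgebra ℤ N ⧸ (Ideal.span {(p : MonoidAlgebra ℤ N),
    aeval (MonoidAlgebra.single x (1 : ℤ) : MonoidAlgebra ℤ N) A} : Ideal (MonoidAlgebra ℤ N))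

/-- A finitely generated abelian group killed by a prime `p` is finite of order a power of `p`. -/
theorem cyc_pgroup (M : Type) [AddCommGroup M] [Module.Finite ℤ M] (p : ℕ) (hp : p.Prime)
    (h : ∀ m : M, p • m = 0) : Finite M ∧ ∃ j : ℕ, Nat.card M = p ^ j := by
  have := Fact.mk hp
  have : NeZero p := ⟨hp.ne_zero⟩
  let _ : Module (ZMod p) M := AddCommGroup.zmodModule h
  have hfin : Module.Finite (ZMod p) M :=
    Module.Finite.of_restrictScalars_finite ℤ (ZMod p) M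
  have h1 : Finite M := @Module.finite_of_finite (ZMod p) M _ _ _ _ hfin
  refine ⟨h1, Module.finrank (ZMod p) M, ?_⟩
  have h2 := @Module.natCard_eq_pow_finrank (ZMod p) M _ _ _ hfin
  rw [h2, Nat.card_zmod]

/-- (A quotient of `ℤ[N]/p`, which has `p ^ |N|` elements.) -/
theorem QM.fcop {N : Type} [CommGroup N] [Finite N] (x : N) (p : ℕ) (hp : p.Prime)
    (hpn : ¬ p ∣ Nat.card N) (A : ℤ[X]) : FCop N (QM x p A) := by
  have hfin : Module.Finite ℤ (QM x p A) :=
    Module.Finite.trans (MonoidAlgebra ℤ N) _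
  obtain ⟨h1, j, hj⟩ := cyc_pgroup (QM x p A) p hp (by
    intro m
    obtain ⟨m, rfl⟩ := Ideal.Quotient.mk_surjective m
    rw [← map_nsmul, Ideal.Quotient.eq_zero_iff_mem, nsmul_eq_mul]
    exact Ideal.mul_mem_right _ _ (Ideal.subset_span (by simp)))
  refine ⟨h1, ?_⟩
  rw [hj]
  exact Nat.Coprime.pow_left j ((Nat.Prime.coprime_iff_not_dvd hp).2 hpn)

/-- The class of `ℤ[N]/(p, A(x))`. -/
noncomputable def qcl {N : Type} [CommGroup N] [Finite N] (x : N) (p : ℕ) (hp : p.Prime)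
    (hpn : ¬ p ∣ Nat.card N) (A : ℤ[X]) : K0 (MonoidAlgebra ℤ N) :=
  fcl N (QM x p A) (QM.fcop x p hp hpn A)

theorem cyc_aeval_X_pow {N : Type} [CommGroup N] (x : N) (i : ℕ) (n : ℤ) :
    aeval (MonoidAlgebra.single x (1 : ℤ) : MonoidAlgebra ℤ N) (C n * X ^ i) =
      MonoidAlgebra.single (x ^ i) n := by
  rw [map_mul, map_pow, aeval_X, aeval_C, MonoidAlgebra.single_pow, one_pow,
    ← Algebra.smul_def, MonoidAlgebra.smul_single, smul_eq_mul, mul_one]

variable {N : Type} [CommGroup N] [Finite N]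

/-- `ℤ[N]` is `ℤ[X]/(X^n - 1)`, in the form needed: `A(x) ∈ (p)` if and only if
`A ∈ (p, X^n - 1)`; every element is of the form `A(x)`. -/
theorem aeval_surj (x : N) (hx : ∀ y : N, y ∈ Subgroup.zpowers x) (r : MonoidAlgebra ℤ N) :
    ∃ A : ℤ[X], aeval (MonoidAlgebra.single x (1 : ℤ) : MonoidAlgebra ℤ N) A = r := by
  induction r using MonoidAlgebra.induction_linear with
  | zero => exact ⟨0, map_zero _⟩
  | add a b ha hb =>
    obtain ⟨A, hA⟩ := ha
    obtain ⟨B, hB⟩ := hb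
    exact ⟨A + B, by rw [map_add, hA, hB]⟩
  | single a n =>
    obtain ⟨i, rfl⟩ := Submonoid.mem_powers_iff _ _ |>.1 (mem_powers_iff_mem_zpowers.2 (hx a))
    exact ⟨C n * X ^ i, cyc_aeval_X_pow x i n⟩

theorem aeval_eq_zero (x : N) (hx : ∀ y : N, y ∈ Subgroup.zpowers x) (A : ℤ[X])
    (hA : aeval (MonoidAlgebra.single x (1 : ℤ) : MonoidAlgebra ℤ N) A = 0) :
    X ^ Nat.card N - 1 ∣ A := by
  have hn : Nat.card N ≠ 0 := Nat.card_pos.ne'
  have hord : orderOf x = Nat.card N := orderOf_eq_card_of_forall_mem_zpowers hx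
  have hmon : (X ^ Nat.card N - 1 : ℤ[X]).Monic := monic_X_pow_sub_C (1 : ℤ) hn
  rw [← modByMonic_eq_zero_iff_dvd hmon]
  set r := A %ₘ (X ^ Nat.card N - 1) with hr
  have hdeg : r.natDegree < Nat.card N := by
    have h2 : (X ^ Nat.card N - 1 : ℤ[X]).natDegree = Nat.card N :=
      natDegree_X_pow_sub_C (n := Nat.card N) (r := (1 : ℤ))
    have h3 : (X ^ Nat.card N - 1 : ℤ[X]) ≠ 1 := by
      intro h4
      rw [h4, natDegree_one] at h2
      exact hn h2.symm
    have h1 := natDegree_modByMonic_lt A hmon h3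
    rwa [h2] at h1
  have hxn : aeval (MonoidAlgebra.single x (1 : ℤ) : MonoidAlgebra ℤ N)
      (X ^ Nat.card N - 1 : ℤ[X]) = 0 := by
    rw [map_sub, map_pow, aeval_X, map_one, MonoidAlgebra.single_pow, one_pow, ← hord,
      pow_orderOf_eq_one, MonoidAlgebra.one_def, sub_self]
  have hr0 : aeval (MonoidAlgebra.single x (1 : ℤ) : MonoidAlgebra ℤ N) r = 0 := by
    have h1 := modByMonic_add_div A (X ^ Nat.card N - 1 : ℤ[X])
    rw [← h1, map_add, map_mul, hxn, zero_mul, add_zero] at hA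
    exact hA
  -- coefficients
  have hsum : r = ∑ i ∈ Finset.range (Nat.card N), C (r.coeff i) * X ^ i := by
    rw [← as_sum_range_C_mul_X_pow' r hdeg]
  have hinj : ∀ i ∈ Finset.range (Nat.card N), ∀ j ∈ Finset.range (Nat.card N),
      x ^ i = x ^ j → i = j := by
    intro i hi j hj hij
    rw [← hord] at hi hj
    exact pow_injOn_Iio_orderOf (Finset.mem_range.1 hi) (Finset.mem_range.1 hj) hij
  rw [hsum, map_sum] at hr0
  ext i
  rw [coeff_zero]
  by_cases hi : i < Nat.card N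
  · have h1 : (∑ j ∈ Finset.range (Nat.card N), aeval (MonoidAlgebra.single x (1 : ℤ) :
        MonoidAlgebra ℤ N) (C (r.coeff j) * X ^ j)).coeff (x ^ i) = 0 := by
      rw [hr0]
      simp
    rw [MonoidAlgebra.coeff_sum, Finset.sum_apply'] at h1
    rw [Finset.sum_eq_single i] at h1
    · rw [cyc_aeval_X_pow] at h1
      simpa using h1
    · intro j hj hji
      rw [cyc_aeval_X_pow]
      have h2 : x ^ j ≠ x ^ i := fun h3 => hji (hinj j hj i (Finset.mem_range.2 hi) h3)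
      simp [h2]
    · intro h2
      exact absurd (Finset.mem_range.2 hi) h2
  · exact coeff_eq_zero_of_natDegree_lt (by omega)

end Pool.Agent.Lib.MP_0e6cae_nt.KF
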