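import Pool.Agent.Lib.MP_0e6cae_nt.KF.Cyc

/-!
The classes of the modules `ℤ[N]/(p, A(x))`, `N` cyclic with generator `x`, `p` prime to `|N|`.
-/

open CategoryTheory Polynomial

namespace Pool.Agent.Lib.MP_0e6cae_nt.KF

variable {N : Type} [CommGroup N] [Finite N]

private theorem cycC_congr {I J : Ideal (MonoidAlgebra ℤ N)} (h : I = J)
    (hI : FCop N (MonoidAlgebra ℤ N ⧸ I)) (hJ : FCop N (MonoidAlgebra ℤ N ⧸ J)) :
    fcl N (MonoidAlgebra ℤ N ⧸ I) hI = fcl N (MonoidAlgebra ℤ N ⧸ J) hJ := by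
  subst h
  rfl

/-- `(p, z - 1) = (∑_{i<p} z^i)` if `z` has finite order prime to `p`. -/
private theorem cycC_ideal {R : Type} [CommRing R] (z : R) (p n : ℕ) (hzn : z ^ n = 1)
    (hpn : p.Coprime n) :
    (Ideal.span {(p : R), z - 1} : Ideal R) = Ideal.span {∑ i ∈ Finset.range p, z ^ i} := by
  obtain ⟨w, hw⟩ : z - 1 ∣ (∑ i ∈ Finset.range p, z ^ i) - p := by
    have h1 : (∑ i ∈ Finset.range p, z ^ i) - (p : R) =
        ∑ i ∈ Finset.range p, (z ^ i - 1 ^ i) := by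
      rw [Finset.sum_sub_distrib]
      simp
    rw [h1]
    exact Finset.dvd_sum fun i _ => sub_dvd_pow_sub_pow z 1 i
  have hord : p.Coprime (orderOf z) :=
    Nat.Coprime.coprime_dvd_right (orderOf_dvd_of_pow_eq_one hzn) hpn
  obtain ⟨m, hm⟩ := exists_pow_eq_self_of_coprime hord
  have h1 : z - 1 ∈ Ideal.span {∑ i ∈ Finset.range p, z ^ i} := by
    rw [Ideal.mem_span_singleton]
    have h2 : (∑ i ∈ Finset.range p, z ^ i) ∣ z ^ p - 1 := by
      rw [← geom_sum_mul]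
      exact Dvd.intro _ rfl
    have h3 : z ^ p - 1 ∣ z - 1 := by
      have h4 := sub_dvd_pow_sub_pow (z ^ p) 1 m
      rw [hm, one_pow] at h4
      exact h4
    exact h2.trans h3
  apply le_antisymm
  · rw [Ideal.span_le]
    rintro y (rfl | rfl)
    · have h2 : (p : R) = (∑ i ∈ Finset.range p, z ^ i) - (z - 1) * w := by
        rw [← hw]
        ring
      rw [h2]
      exact sub_mem (Ideal.mem_span_singleton_self _) (Ideal.mul_mem_right _ _ h1)
    · exact h1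
  · rw [Ideal.span_le]
    rintro y rfl
    have h2 : (∑ i ∈ Finset.range p, z ^ i) = (p : R) + (z - 1) * w := by
      rw [← hw]
      ring
    rw [SetLike.mem_coe, h2]
    exact add_mem (Ideal.subset_span (Set.mem_insert _ _))
      (Ideal.mul_mem_right _ _ (Ideal.subset_span (Set.mem_insert_of_mem _ rfl)))

/-- `(p, x^d - 1) = (v)`, `v = ∑_{i<p} x^(di)`: `v ≡ p` modulo `x^d - 1`, and
`x^d - 1 ∈ (x^(dp) - 1) ⊆ (v)` because `p` is prime to `|N|`. -/
theorem qcl_pow (x : N) (p : ℕ) (hp : p.Prime) (hpn : ¬ p ∣ Nat.card N) (d : ℕ)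
    (hd : d ∣ Nat.card N) : qcl x p hp hpn (X ^ d - 1) = 0 := by
  have h0 : (MonoidAlgebra.single x (1 : ℤ) : MonoidAlgebra ℤ N) ^ Nat.card N = 1 := by
    rw [MonoidAlgebra.single_pow, pow_card_eq_one', one_pow]
    rfl
  have h1 : ((MonoidAlgebra.single x (1 : ℤ) : MonoidAlgebra ℤ N) ^ d) ^ Nat.card N = 1 := by
    rw [← pow_mul, mul_comm, pow_mul, h0, one_pow]
  have h2 : (Ideal.span {(p : MonoidAlgebra ℤ N),
      aeval (MonoidAlgebra.single x (1 : ℤ) : MonoidAlgebra ℤ N) (X ^ d - 1 : ℤ[X])} :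
      Ideal (MonoidAlgebra ℤ N)) = Ideal.span {∑ i ∈ Finset.range p,
        ((MonoidAlgebra.single x (1 : ℤ) : MonoidAlgebra ℤ N) ^ d) ^ i} := by
    have h3 : aeval (MonoidAlgebra.single x (1 : ℤ) : MonoidAlgebra ℤ N) (X ^ d - 1 : ℤ[X]) =
        (MonoidAlgebra.single x (1 : ℤ) : MonoidAlgebra ℤ N) ^ d - 1 := by
      rw [map_sub, map_pow, aeval_X, map_one]
    rw [h3]
    exact cycC_ideal _ p (Nat.card N) h1 ((Nat.Prime.coprime_iff_not_dvd hp).2 hpn)
  have h4 : FCop N (MonoidAlgebra ℤ N ⧸ (Ideal.span {∑ i ∈ Finset.range p,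
        ((MonoidAlgebra.single x (1 : ℤ) : MonoidAlgebra ℤ N) ^ d) ^ i} :
        Ideal (MonoidAlgebra ℤ N))) := by
    rw [← h2]
    exact QM.fcop x p hp hpn _
  exact (cycC_congr h2 _ h4).trans (fcl_span _ h4)

end Pool.Agent.Lib.MP_0e6cae_nt.KF
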