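import Pool.Agent.Lib.MP_0e6cae_nt.KF.CycB
import Pool.Agent.Lib.MP_0e6cae_nt.KF.CycC

/-!
The classes of the modules `ℤ[N]/(p, A(x))`, `N` cyclic with generator `x`, `p` prime to `|N|`.
-/

open CategoryTheory Polynomial

namespace Pool.Agent.Lib.MP_0e6cae_nt.KF

variable {N : Type} [CommGroup N] [Finite N]

theorem cycD_one (x : N) (hx : ∀ y : N, y ∈ Subgroup.zpowers x) (p : ℕ) (hp : p.Prime)
    (hpn : ¬ p ∣ Nat.card N) : qcl x p hp hpn 1 = 0 := by
  have h := qcl_mul x hx p hp hpn 1 1 (by rw [one_mul]; exact one_dvd _)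
  rw [one_mul] at h
  exact (left_eq_add.mp h)

theorem cycD_prod (x : N) (hx : ∀ y : N, y ∈ Subgroup.zpowers x) (p : ℕ) (hp : p.Prime)
    (hpn : ¬ p ∣ Nat.card N) (s : Finset ℕ) (hs : s ⊆ (Nat.card N).divisors) :
    qcl x p hp hpn (∏ e ∈ s, cyclotomic e ℤ) = ∑ e ∈ s, qcl x p hp hpn (cyclotomic e ℤ) := by
  classical
  induction s using Finset.induction_on with
  | empty =>
    rw [Finset.prod_empty, Finset.sum_empty]
    exact cycD_one x hx p hp hpn
  | insert a s ha ih =>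
    have h0 : ∏ e ∈ insert a s, cyclotomic e ℤ ∣ X ^ Nat.card N - 1 := by
      rw [← prod_cyclotomic_eq_X_pow_sub_one Nat.card_pos]
      exact Finset.prod_dvd_prod_of_subset _ _ _ hs
    rw [Finset.prod_insert ha] at h0 ⊢
    rw [Finset.sum_insert ha, qcl_mul x hx p hp hpn _ _ h0,
      ih ((Finset.subset_insert a s).trans hs)]

/-- Strong induction on `d`: `X^d - 1 = ∏_{e ∣ d} Φ_e`. -/
theorem qcl_cyclotomic (x : N) (hx : ∀ y : N, y ∈ Subgroup.zpowers x) (p : ℕ) (hp : p.Prime)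
    (hpn : ¬ p ∣ Nat.card N) (d : ℕ) (hd : d ∣ Nat.card N) :
    qcl x p hp hpn (cyclotomic d ℤ) = 0 := by
  induction d using Nat.strong_induction_on with
  | _ d ih =>
    have hn0 : Nat.card N ≠ 0 := Nat.card_pos.ne'
    have hd0 : 0 < d := Nat.pos_of_dvd_of_pos hd Nat.card_pos
    have h1 : d.divisors ⊆ (Nat.card N).divisors := Nat.divisors_subset_of_dvd hn0 hd
    have h2 := cycD_prod x hx p hp hpn d.divisors h1
    rw [prod_cyclotomic_eq_X_pow_sub_one hd0, qcl_pow x p hp hpn d hd] at h2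
    rw [Finset.sum_eq_single_of_mem d (Nat.mem_divisors_self d hd0.ne')] at h2
    · exact h2.symm
    · intro e he hed
      have he' := Nat.mem_divisors.mp he
      exact ih e (lt_of_le_of_ne (Nat.le_of_dvd hd0 he'.1) hed) (he'.1.trans hd)

end Pool.Agent.Lib.MP_0e6cae_nt.KF
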