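import Pool.Agent.Lib.MP_0e6cae_nt.Gor
import Pool.Agent.Lib.MP_0e6cae_nt.K0c

/-!
Finite modules of order prime to the order of the group have finite projective dimension.
-/

open CategoryTheory

namespace Pool.Agent.Lib.MP_0e6cae_nt.KF

/-- The `ℤ[N]`-linear map `x ↦ ∑ g s(g⁻¹ x)`. -/
noncomputable def fpdAvg {N : Type} [Group N] [Fintype N] {A B : Type} [AddCommGroup A]
    [Module (MonoidAlgebra ℤ N) A] [AddCommGroup B] [Module (MonoidAlgebra ℤ N) B] (s : A →+ B) :
    A →ₗ[MonoidAlgebra ℤ N] B where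
  toFun x := ∑ g : N, (MonoidAlgebra.single g (1 : ℤ) : MonoidAlgebra ℤ N) •
    s ((MonoidAlgebra.single g⁻¹ (1 : ℤ) : MonoidAlgebra ℤ N) • x)
  map_add' x y := by
    rw [← Finset.sum_add_distrib]
    refine Finset.sum_congr rfl fun g _ => ?_
    rw [smul_add, map_add, smul_add]
  map_smul' r x := by
    rw [RingHom.id_apply]
    induction r using MonoidAlgebra.induction_linear with
    | zero =>
      rw [zero_smul, zero_smul]
      refine Finset.sum_eq_zero fun g _ => ?_
      rw [smul_zero, map_zero, smul_zero]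
    | add a b ha hb =>
      rw [add_smul, add_smul, ← ha, ← hb, ← Finset.sum_add_distrib]
      refine Finset.sum_congr rfl fun g _ => ?_
      rw [smul_add, map_add, smul_add]
    | single a n =>
      rw [Finset.smul_sum]
      refine (Fintype.sum_equiv (Equiv.mulLeft a) _ _ fun g => ?_).symm
      have e : ∀ b : N, (MonoidAlgebra.single b n : MonoidAlgebra ℤ N) =
          n • MonoidAlgebra.single b (1 : ℤ) := by
        intro b
        rw [MonoidAlgebra.smul_single, smul_eq_mul, mul_one]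
      rw [Equiv.coe_mulLeft, smul_smul, smul_smul, MonoidAlgebra.single_mul_single,
        MonoidAlgebra.single_mul_single, mul_inv_rev, inv_mul_cancel_right, one_mul, mul_one,
        e (a * g), e g⁻¹, smul_assoc, smul_assoc, map_zsmul, smul_comm n]

theorem fpdAvg_apply {N : Type} [Group N] [Fintype N] {A B : Type} [AddCommGroup A]
    [Module (MonoidAlgebra ℤ N) A] [AddCommGroup B] [Module (MonoidAlgebra ℤ N) B] (s : A →+ B)
    (x : A) : (fpdAvg s : A →ₗ[MonoidAlgebra ℤ N] B) x =
      ∑ g : N, (MonoidAlgebra.single g (1 : ℤ) : MonoidAlgebra ℤ N) •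
      s ((MonoidAlgebra.single g⁻¹ (1 : ℤ) : MonoidAlgebra ℤ N) • x) := rfl

/-- `0 → L → ℤ[N]^k → M → 0` with `L` projective.
(`ψ : ℤ[N]^t → L` surjective, `c = |M|`, `n = |N|`. A `ℤ`-linear section `s` of `ψ` gives the
`ℤ[N]`-linear `S x = ∑ g s(g⁻¹ x)` with `ψ S = n`. The multiplication by `c` maps `ℤ[N]^k` to `L`,
so it lifts to `ℤ[N]^k → ℤ[N]^t`, and there is a `ℤ[N]`-linear `S'` with `ψ S' = c` on `L`. A
combination of `S` and `S'` is a section of `ψ`.) -/
theorem ker_projective {N : Type} [Group N] [Finite N] (M : Type) [AddCommGroup M]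
    [Module (MonoidAlgebra ℤ N) M] [Finite M] (hc : (Nat.card M).Coprime (Nat.card N)) (k : ℕ)
    (π : (Fin k → MonoidAlgebra ℤ N) →ₗ[MonoidAlgebra ℤ N] M) (hπ : Function.Surjective π) :
    Module.Finite (MonoidAlgebra ℤ N) (LinearMap.ker π) ∧
      Module.Projective (MonoidAlgebra ℤ N) (LinearMap.ker π) := by
  have := Fintype.ofFinite N
  have hfin : Module.Finite ℤ (Fin k → MonoidAlgebra ℤ N) :=
    Module.Finite.trans (MonoidAlgebra ℤ N) _
  have hkerZ : Module.Finite ℤ (LinearMap.ker π) := by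
    have h1 : Module.Finite ℤ (LinearMap.ker π.toAddMonoidHom.toIntLinearMap) :=
      inferInstance
    exact h1
  have hker : Module.Finite (MonoidAlgebra ℤ N) (LinearMap.ker π) :=
    Module.Finite.of_restrictScalars_finite ℤ _ _
  refine ⟨hker, ?_⟩
  have htf : ∀ (n : ℤ) (x : LinearMap.ker π), n ≠ 0 → n • x = 0 → x = 0 := by
    intro n x hn hx
    apply Subtype.ext
    funext i
    have h1 : n • (x : Fin k → MonoidAlgebra ℤ N) = 0 := congrArg Subtype.val hx
    have h2 : n • (x : Fin k → MonoidAlgebra ℤ N) i = 0 := congrFun h1 i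
    ext a
    let φ : MonoidAlgebra ℤ N →+ ℤ :=
      { toFun := fun y => y.coeff a
        map_zero' := by simp
        map_add' := fun y z => by simp }
    have h3 : n * ((x : Fin k → MonoidAlgebra ℤ N) i).coeff a = 0 := by
      have h4 := map_zsmul φ n ((x : Fin k → MonoidAlgebra ℤ N) i)
      rw [h2, map_zero, smul_eq_mul] at h4
      exact h4.symm
    exact (mul_eq_zero.1 h3).resolve_left hn
  have hLt : Module.IsTorsionFree ℤ (LinearMap.ker π) := ⟨fun n hn x y hxy => by
    have h1 : n • (x - y) = 0 := by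
      rw [smul_sub]
      exact sub_eq_zero.2 hxy
    exact sub_eq_zero.1 (htf n _ hn.ne_zero h1)⟩
  obtain ⟨t, ψ, hψ⟩ := Module.Finite.exists_fin' (MonoidAlgebra ℤ N) (LinearMap.ker π)
  -- the integral section
  obtain ⟨s, hs⟩ := Module.projective_lifting_property ψ.toAddMonoidHom.toIntLinearMap
    (LinearMap.id : LinearMap.ker π →ₗ[ℤ] LinearMap.ker π) hψ
  have hs' : ∀ x, ψ (s x) = x := fun x => LinearMap.congr_fun hs x
  have hS : ∀ x : LinearMap.ker π, ψ ((fpdAvg s.toAddMonoidHom :
      LinearMap.ker π →ₗ[MonoidAlgebra ℤ N] (Fin t → MonoidAlgebra ℤ N)) x) =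
      (Nat.card N : ℤ) • x := by
    intro x
    rw [fpdAvg_apply, map_sum]
    have h1 : ∀ g : N, ψ ((MonoidAlgebra.single g (1 : ℤ) : MonoidAlgebra ℤ N) •
        s.toAddMonoidHom ((MonoidAlgebra.single g⁻¹ (1 : ℤ) : MonoidAlgebra ℤ N) • x)) = x := by
      intro g
      rw [map_smul]
      have h2 : ψ (s.toAddMonoidHom ((MonoidAlgebra.single g⁻¹ (1 : ℤ) : MonoidAlgebra ℤ N) • x)) =
          (MonoidAlgebra.single g⁻¹ (1 : ℤ) : MonoidAlgebra ℤ N) • x := hs' _
      rw [h2, smul_smul, MonoidAlgebra.single_mul_single, mul_inv_cancel, one_mul,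
        ← MonoidAlgebra.one_def, one_smul]
    rw [Finset.sum_congr rfl fun g _ => h1 g, Finset.sum_const, Finset.card_univ,
      Nat.card_eq_fintype_card, natCast_zsmul]
  -- multiplication by the order of `M`
  have hcM : ∀ y : Fin k → MonoidAlgebra ℤ N, (Nat.card M) • y ∈ LinearMap.ker π := by
    intro y
    rw [LinearMap.mem_ker, map_nsmul, card_nsmul_eq_zero']
  let mc : (Fin k → MonoidAlgebra ℤ N) →ₗ[MonoidAlgebra ℤ N] LinearMap.ker π :=
    LinearMap.codRestrict _ ((Nat.card M) • LinearMap.id) hcM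
  obtain ⟨T, hT⟩ := Module.projective_lifting_property ψ mc hψ
  have hT' : ∀ x : LinearMap.ker π, ψ (T x) = (Nat.card M : ℤ) • x := by
    intro x
    have h1 : ψ (T x) = mc x := LinearMap.congr_fun hT x
    rw [h1]
    apply Subtype.ext
    change (Nat.card M) • (x : Fin k → MonoidAlgebra ℤ N) = _
    rw [Submodule.coe_smul_of_tower, natCast_zsmul]
  obtain ⟨u, v, huv⟩ : ∃ u v : ℤ, u * Nat.card M + v * Nat.card N = 1 := by
    have h1 : IsCoprime (Nat.card M : ℤ) (Nat.card N : ℤ) := Nat.isCoprime_iff_coprime.2 hc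
    exact h1
  refine Module.Projective.of_split (u • T.comp (LinearMap.ker π).subtype +
    v • (fpdAvg s.toAddMonoidHom :
      LinearMap.ker π →ₗ[MonoidAlgebra ℤ N] (Fin t → MonoidAlgebra ℤ N))) ψ ?_
  ext x : 1
  rw [LinearMap.comp_apply, LinearMap.add_apply, LinearMap.smul_apply, LinearMap.smul_apply,
    map_add, map_zsmul, map_zsmul, hS, LinearMap.comp_apply, Submodule.subtype_apply, hT',
    smul_smul, smul_smul, ← add_smul, huv, one_smul, LinearMap.id_apply]

theorem fpd_of_coprime {N : Type} [Group N] [Finite N] (M : Type) [AddCommGroup M]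
    [Module (MonoidAlgebra ℤ N) M] [Finite M] (hc : (Nat.card M).Coprime (Nat.card N)) :
    ∃ n : ℕ, HasProjectiveDimensionLE (ModuleCat.of (MonoidAlgebra ℤ N) M) n := by
  obtain ⟨k, π, hπ⟩ := Module.Finite.exists_fin' (MonoidAlgebra ℤ N) M
  obtain ⟨h1, h2⟩ := ker_projective M hc k π hπ
  refine ⟨1, ?_⟩
  have hS := LinearMap.shortExact_shortComplexKer hπ
  refine hS.hasProjectiveDimensionLT_X₃ 1 ?_ ?_
  · have : Projective (ModuleCat.of (MonoidAlgebra ℤ N) (LinearMap.ker π)) :=
      (IsProjective.iff_projective (R := MonoidAlgebra ℤ N) _).1 h2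
    exact (projective_iff_hasProjectiveDimensionLE_zero
      (ModuleCat.of (MonoidAlgebra ℤ N) (LinearMap.ker π))).1 this
  · have hP : Module.Projective (MonoidAlgebra ℤ N) (Fin k → MonoidAlgebra ℤ N) := inferInstance
    have : Projective (ModuleCat.of (MonoidAlgebra ℤ N) (Fin k → MonoidAlgebra ℤ N)) :=
      (IsProjective.iff_projective _).1 hP
    have h0 : HasProjectiveDimensionLT
        (ModuleCat.of (MonoidAlgebra ℤ N) (Fin k → MonoidAlgebra ℤ N)) 1 :=
      (projective_iff_hasProjectiveDimensionLE_zero _).1 this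
    exact hasProjectiveDimensionLT_of_ge _ 1 2 (by omega)

end Pool.Agent.Lib.MP_0e6cae_nt.KF
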