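import Pool.Agent.Lib.MP_0e6cae_nt.KF.Cyc

/-!
Modules over `𝔽_p[X]/(Φ_d)`: semisimplicity, and the simple modules are conjugate.
-/

open CategoryTheory Polynomial

namespace Pool.Agent.Lib.MP_0e6cae_nt.KF

variable {N : Type} [CommGroup N] [Finite N]

/-- `M` is killed by `p` and by `Φ_d(x)`. -/
def Kil (x : N) (p d : ℕ) (M : Type) [AddCommGroup M] [Module (MonoidAlgebra ℤ N) M] : Prop :=
  (∀ y : M, p • y = 0) ∧
    ∀ y : M, aeval (MonoidAlgebra.single x (1 : ℤ) : MonoidAlgebra ℤ N) (cyclotomic d ℤ) • y = 0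

omit [Finite N] in
/-- An element of `ℤ[N]` which vanishes modulo `p` kills a module killed by `p`. -/
theorem kil_ker (p : ℕ) (M : Type) [AddCommGroup M] [Module (MonoidAlgebra ℤ N) M]
    (hM : ∀ y : M, p • y = 0) (r : MonoidAlgebra ℤ N)
    (hr : MonoidAlgebra.mapRingHom N (Int.castRingHom (ZMod p)) r = 0) (y : M) : r • y = 0 := by
  have h1 : ∀ g : N, ∃ c : ℤ, r.coeff g = p * c := by
    intro g
    have h2 := MonoidAlgebra.coeff_mapRingHom (Int.castRingHom (ZMod p)) r g
    rw [hr, MonoidAlgebra.coeff_zero] at h2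
    have h3 : ((r.coeff g : ℤ) : ZMod p) = 0 := h2.symm
    rw [ZMod.intCast_zmod_eq_zero_iff_dvd] at h3
    exact h3
  rw [← MonoidAlgebra.sum_coeff_single r, Finsupp.sum, Finset.sum_smul]
  refine Finset.sum_eq_zero fun g _ => ?_
  obtain ⟨c, hc⟩ := h1 g
  have h4 : (MonoidAlgebra.single g (r.coeff g) : MonoidAlgebra ℤ N) =
      p • MonoidAlgebra.single g c := by
    rw [hc, MonoidAlgebra.smul_single, nsmul_eq_mul]
  rw [h4, smul_assoc]
  exact hM _

/-- (`M` is a module over `𝔽_p[X]/(Φ_d)`, `Φ_d` is separable modulo `p`, because `p ∤ d`; a reduced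
artinian ring is semisimple.) -/
theorem kil_semisimple (x : N) (hx : ∀ y : N, y ∈ Subgroup.zpowers x) (p : ℕ) (hp : p.Prime)
    (hpn : ¬ p ∣ Nat.card N) (d : ℕ) (hd : d ∣ Nat.card N) (M : Type) [AddCommGroup M]
    [Module (MonoidAlgebra ℤ N) M] (hM : Kil x p d M) :
    IsSemisimpleModule (MonoidAlgebra ℤ N) M := by
  have := Fact.mk hp
  have : NeZero (Nat.card N : ZMod p) := ⟨by rwa [Ne, ZMod.natCast_eq_zero_iff]⟩
  set f : MonoidAlgebra ℤ N →+* MonoidAlgebra (ZMod p) N :=
    MonoidAlgebra.mapRingHom N (Int.castRingHom (ZMod p)) with hf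
  have hsurj : Function.Surjective f := by
    intro y
    induction y using MonoidAlgebra.induction_linear with
    | zero => exact ⟨0, map_zero f⟩
    | add a b ha hb =>
      obtain ⟨a', rfl⟩ := ha
      obtain ⟨b', rfl⟩ := hb
      exact ⟨a' + b', map_add f a' b'⟩
    | single g c =>
      obtain ⟨z, rfl⟩ := ZMod.intCast_surjective c
      exact ⟨MonoidAlgebra.single g z, MonoidAlgebra.mapRingHom_single _ _ _⟩
  have hss : IsSemisimpleRing (MonoidAlgebra ℤ N ⧸ RingHom.ker f) :=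
    (RingHom.quotientKerEquivOfSurjective hsurj).symm.isSemisimpleRing
  have htor : Module.IsTorsionBySet (MonoidAlgebra ℤ N) M (RingHom.ker f) := by
    rintro y ⟨r, hr⟩
    exact kil_ker p M hM.1 r hr y
  let _ := htor.module
  exact htor.isSemisimpleModule_iff.1 inferInstance

end Pool.Agent.Lib.MP_0e6cae_nt.KF
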