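import Pool.Agent.Lib.MP_0e6cae_nt.KF.Conj

/-!
Homomorphisms from a module with the automorphisms of `N` to the simple modules.
-/

open CategoryTheory Polynomial

namespace Pool.Agent.Lib.MP_0e6cae_nt.KF

variable {N : Type} [CommGroup N] [Finite N]

/-- For every `a` prime to `|N|` there is an automorphism `f` of the group `M` with
`f (x y) = x^a f(y)`. -/
def Aut (x : N) (M : Type) [AddCommGroup M] [Module (MonoidAlgebra ℤ N) M] : Prop :=
  ∀ a : ℕ, a.Coprime (Nat.card N) → ∃ f : M ≃+ M, ∀ y : M,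
    f ((MonoidAlgebra.single x (1 : ℤ) : MonoidAlgebra ℤ N) • y) =
      (MonoidAlgebra.single x (1 : ℤ) : MonoidAlgebra ℤ N) ^ a • f y

/-- An additive map which commutes with a generator is linear. -/
theorem freeB_lin (z : N) (hz : ∀ y : N, y ∈ Subgroup.zpowers z) {M S : Type} [AddCommGroup M]
    [Module (MonoidAlgebra ℤ N) M] [AddCommGroup S] [Module (MonoidAlgebra ℤ N) S] (g : M →+ S)
    (h : ∀ y : M, g ((MonoidAlgebra.single z (1 : ℤ) : MonoidAlgebra ℤ N) • y) =
      (MonoidAlgebra.single z (1 : ℤ) : MonoidAlgebra ℤ N) • g y) (r : MonoidAlgebra ℤ N) (y : M) :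
    g (r • y) = r • g y := by
  obtain ⟨A, rfl⟩ := aeval_surj z hz r
  have hpow : ∀ (n : ℕ) (y : M),
      g ((MonoidAlgebra.single z (1 : ℤ) : MonoidAlgebra ℤ N) ^ n • y) =
      (MonoidAlgebra.single z (1 : ℤ) : MonoidAlgebra ℤ N) ^ n • g y := by
    intro n
    induction n with
    | zero => intro y; rw [pow_zero, one_smul, one_smul]
    | succ n ih => intro y; rw [pow_succ, mul_smul, mul_smul, ih, h]
  induction A using Polynomial.induction_on' generalizing y with
  | add A B hA hB => rw [map_add, add_smul, add_smul, map_add, hA, hB]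
  | monomial n c =>
    rw [Polynomial.aeval_monomial, mul_smul, mul_smul,
      eq_intCast (algebraMap ℤ (MonoidAlgebra ℤ N)) c,
      Int.cast_smul_eq_zsmul, Int.cast_smul_eq_zsmul, map_zsmul, hpow]

/-- (`Hom(M, S)` is a vector space over the field `ℤ[N]/Ann S`, which has `|S|` elements.) -/
theorem card_hom_pow (M S : Type) [AddCommGroup M]
    [Module (MonoidAlgebra ℤ N) M] [Finite M] [AddCommGroup S] [Module (MonoidAlgebra ℤ N) S]
    [Finite S] (hS : IsSimpleModule (MonoidAlgebra ℤ N) S) :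
    ∃ k : ℕ, Nat.card (M →ₗ[MonoidAlgebra ℤ N] S) = Nat.card S ^ k := by
  obtain ⟨I, hI, ⟨e⟩⟩ := isSimpleModule_iff_quot_maximal.1 hS
  letI : Field (MonoidAlgebra ℤ N ⧸ I) := Ideal.Quotient.field I
  have hfin : Finite (MonoidAlgebra ℤ N ⧸ I) := Finite.of_equiv S e.toEquiv
  have hfin2 : Finite (M →ₗ[MonoidAlgebra ℤ N] (MonoidAlgebra ℤ N ⧸ I)) :=
    Finite.of_injective (fun f => (f : M → (MonoidAlgebra ℤ N ⧸ I))) DFunLike.coe_injective
  refine ⟨Module.finrank (MonoidAlgebra ℤ N ⧸ I)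
    (M →ₗ[MonoidAlgebra ℤ N] (MonoidAlgebra ℤ N ⧸ I)), ?_⟩
  rw [Nat.card_congr (e.congrRight : (M →ₗ[MonoidAlgebra ℤ N] S) ≃ₗ[MonoidAlgebra ℤ N]
    (M →ₗ[MonoidAlgebra ℤ N] (MonoidAlgebra ℤ N ⧸ I))).toEquiv, Nat.card_congr e.toEquiv]
  exact Module.natCard_eq_pow_finrank

/-- (`ψ ↦ τ⁻¹ ∘ ψ ∘ f` with `τ` of `kil_conj` and `f` of `Aut`.) -/
theorem card_hom_eq (x : N) (hx : ∀ y : N, y ∈ Subgroup.zpowers x) (p : ℕ) (hp : p.Prime)
    (hpn : ¬ p ∣ Nat.card N) (d : ℕ) (hd : d ∣ Nat.card N) (M : Type) [AddCommGroup M]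
    [Module (MonoidAlgebra ℤ N) M] (hA : Aut x M)
    (S S' : Type) [AddCommGroup S] [Module (MonoidAlgebra ℤ N) S] [AddCommGroup S']
    [Module (MonoidAlgebra ℤ N) S'] (hS : Kil x p d S) (hS' : Kil x p d S')
    (h : IsSimpleModule (MonoidAlgebra ℤ N) S) (h' : IsSimpleModule (MonoidAlgebra ℤ N) S') :
    Nat.card S = Nat.card S' ∧ Nat.card (M →ₗ[MonoidAlgebra ℤ N] S) =
      Nat.card (M →ₗ[MonoidAlgebra ℤ N] S') := by
  obtain ⟨a, ha, τ, hτ⟩ := kil_conj x hx p hp hpn d hd S S' hS hS' h h'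
  obtain ⟨f, hf⟩ := hA a ha
  refine ⟨(Nat.card_congr τ.toEquiv).symm, ?_⟩
  have hx' : ∀ y : N, y ∈ Subgroup.zpowers (x ^ a) := by
    obtain ⟨m, hm⟩ := exists_pow_eq_self_of_coprime
      (Nat.Coprime.coprime_dvd_right (orderOf_dvd_natCard x) ha)
    have h1 : Subgroup.zpowers x ≤ Subgroup.zpowers (x ^ a) := by
      rw [Subgroup.zpowers_le]
      exact Subgroup.mem_zpowers_iff.2 ⟨(m : ℤ), by rw [zpow_natCast, hm]⟩
    exact fun y => h1 (hx y)
  have hsp : (MonoidAlgebra.single (x ^ a) (1 : ℤ) : MonoidAlgebra ℤ N) =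
      (MonoidAlgebra.single x (1 : ℤ) : MonoidAlgebra ℤ N) ^ a := by
    rw [MonoidAlgebra.single_pow, one_pow]
  have hf' : ∀ y : M, f.symm ((MonoidAlgebra.single x (1 : ℤ) : MonoidAlgebra ℤ N) ^ a • y) =
      (MonoidAlgebra.single x (1 : ℤ) : MonoidAlgebra ℤ N) • f.symm y := by
    intro y
    rw [AddEquiv.symm_apply_eq, hf, AddEquiv.apply_symm_apply]
  have hτ' : ∀ y : S, τ.symm ((MonoidAlgebra.single x (1 : ℤ) : MonoidAlgebra ℤ N) ^ a • y) =
      (MonoidAlgebra.single x (1 : ℤ) : MonoidAlgebra ℤ N) • τ.symm y := by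
    intro y
    rw [AddEquiv.symm_apply_eq, hτ, AddEquiv.apply_symm_apply]
  have hpow : ∀ (ψ : M →ₗ[MonoidAlgebra ℤ N] S) (y : M),
      ψ ((MonoidAlgebra.single x (1 : ℤ) : MonoidAlgebra ℤ N) ^ a • y) =
      (MonoidAlgebra.single x (1 : ℤ) : MonoidAlgebra ℤ N) ^ a • ψ y := fun ψ y => map_smul ψ _ y
  refine Nat.card_congr
    { toFun := fun ψ =>
        { toFun := fun y => τ.symm (ψ (f y))
          map_add' := fun y z => by rw [map_add, map_add, map_add]
          map_smul' := fun r y => freeB_lin x hx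
            ((τ.symm.toAddMonoidHom.comp ψ.toAddMonoidHom).comp f.toAddMonoidHom) (fun y => by
              show τ.symm (ψ (f _)) = _ • τ.symm (ψ (f y))
              rw [hf, hpow, hτ']) r y }
      invFun := fun φ =>
        { toFun := fun y => τ (φ (f.symm y))
          map_add' := fun y z => by rw [map_add, map_add, map_add]
          map_smul' := fun r y => freeB_lin (x ^ a) hx'
            ((τ.toAddMonoidHom.comp φ.toAddMonoidHom).comp f.symm.toAddMonoidHom) (fun y => by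
              show τ (φ (f.symm _)) = _ • τ (φ (f.symm y))
              rw [hsp, hf', map_smul, hτ]) r y }
      left_inv := fun ψ => LinearMap.ext fun y => by
        show τ (τ.symm (ψ (f (f.symm y)))) = ψ y
        rw [AddEquiv.apply_symm_apply, AddEquiv.apply_symm_apply]
      right_inv := fun φ => LinearMap.ext fun y => by
        show τ.symm (τ (φ (f.symm (f y)))) = φ y
        rw [AddEquiv.symm_apply_apply, AddEquiv.symm_apply_apply] }

end Pool.Agent.Lib.MP_0e6cae_nt.KF
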