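import Pool.Agent.Lib.MP_0e6cae_nt.KF.Sub
import Pool.Agent.Lib.MP_0e6cae_nt.KF.FreeC
import Pool.Agent.Lib.MP_0e6cae_nt.KF.CycD

/-!
A finite module of order prime to the order of the cyclic group `N` on which the automorphisms of
`N` act has class zero.
-/

open CategoryTheory Polynomial

namespace Pool.Agent.Lib.MP_0e6cae_nt.KF

variable {N : Type} [CommGroup N] [Finite N]

/-- **The vanishing theorem.** -/
theorem fcl_eq_zero (x : N) (hx : ∀ y : N, y ∈ Subgroup.zpowers x) (M : Type) [AddCommGroup M]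
    [Module (MonoidAlgebra ℤ N) M] (h : FCop N M) (hA : Aut x M) : fcl N M h = 0 := by
  suffices key : ∀ (n : ℕ) (M : Type) [AddCommGroup M] [Module (MonoidAlgebra ℤ N) M]
      (h : FCop N M) (_ : Aut x M), Nat.card M = n → fcl N M h = 0 from key _ M h hA rfl
  intro n
  induction n using Nat.strong_induction_on with
  | _ n ih =>
    intro M _ _ h hA hn
    have hfin : Finite M := h.1
    rcases subsingleton_or_nontrivial M with h0 | h0
    · exact fcl_zero h
    obtain ⟨p, d, hp, hpM, hd, hne⟩ := exists_sub x M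
    have hpn : ¬ p ∣ Nat.card N := fun h1 =>
      hp.one_lt.ne' (Nat.dvd_one.1 (h.2 ▸ Nat.dvd_gcd hpM h1))
    obtain ⟨hA1, hA2⟩ := sub_aut x hx p d hd M hA
    have hS : FCop N (sub x p d M) :=
      h.inj (sub x p d M).subtype.toAddMonoidHom Subtype.val_injective
    have hQ : FCop N (M ⧸ sub x p d M) :=
      h.surj (sub x p d M).mkQ.toAddMonoidHom (Submodule.mkQ_surjective _)
    have hfinS : Finite (sub x p d M) := hS.1
    have hfinQ : Finite (M ⧸ sub x p d M) := hQ.1
    have hK : Kil x p d (sub x p d M) :=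
      ⟨fun y => Subtype.ext y.2.1, fun y => Subtype.ext y.2.2⟩
    obtain ⟨k, ⟨e⟩⟩ := exists_free x hx p hp hpn d hd (sub x p d M) hK hA1
    have hD : FCop N (QM x p (cyclotomic d ℤ)) := QM.fcop x p hp hpn _
    have h1 : fcl N (sub x p d M) hS = 0 := by
      rw [fcl_equiv hS (hD.pi k) e, fcl_pi hD k (hD.pi k)]
      have h2 : fcl N (QM x p (cyclotomic d ℤ)) hD = 0 := qcl_cyclotomic x hx p hp hpn d hd
      rw [h2, smul_zero]
    have hlt : Nat.card (M ⧸ sub x p d M) < n := by
      have h3 : Nat.card M = Nat.card (sub x p d M) * Nat.card (M ⧸ sub x p d M) :=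
        Submodule.card_eq_card_quotient_mul_card (sub x p d M)
      have h4 : 1 < Nat.card (sub x p d M) := by
        have : Nontrivial (sub x p d M) := (Submodule.nontrivial_iff_ne_bot).2 hne
        exact Finite.one_lt_card
      rw [← hn, h3]
      exact lt_mul_left Nat.card_pos h4
    rw [fcl_exact hS h hQ (sub x p d M).subtype (sub x p d M).mkQ Subtype.val_injective
      (LinearMap.exact_subtype_mkQ _) (Submodule.mkQ_surjective _), h1,
      ih _ hlt (M ⧸ sub x p d M) hQ hA2 rfl, add_zero]

end Pool.Agent.Lib.MP_0e6cae_nt.KF
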