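import Pool.Agent.Lib.MP_0e6cae_nt.KF.FreeB
import Pool.Agent.Lib.MP_0e6cae_nt.SW.Proj

/-!
The restriction to a cyclic subgroup, all of whose automorphisms are induced by conjugation.
-/

open CategoryTheory

namespace Pool.Agent.Lib.MP_0e6cae_nt.KF

open SW

/-- Restriction of modules of finite projective dimension. -/
noncomputable def fres {C G : Type} [Group C] [Group G] [Finite G] (f : C →* G)
    (hf : Function.Injective f) (A : FPMod (MonoidAlgebra ℤ G)) : FPMod (MonoidAlgebra ℤ C) where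
  carrier := ResF f A.carrier
  fg := by
    have := A.fg
    exact ResF.finite f A.carrier
  fpd := by
    have := A.fg
    exact ResF.fpd f hf A.carrier A.fpd

theorem fres_exact {C G : Type} [Group C] [Group G] [Finite G] (f : C →* G)
    (hf : Function.Injective f) {A' A A'' : FPMod (MonoidAlgebra ℤ G)}
    (φ : A'.carrier →ₗ[MonoidAlgebra ℤ G] A.carrier)
    (ψ : A.carrier →ₗ[MonoidAlgebra ℤ G] A''.carrier) (h1 : Function.Injective φ)
    (h2 : Function.Exact φ ψ) (h3 : Function.Surjective ψ) :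
    K0.mk (fres f hf A) = K0.mk (fres f hf A') + K0.mk (fres f hf A'') :=
  K0.mk_exact (M' := fres f hf A') (M := fres f hf A) (M'' := fres f hf A'')
    (ResF.map (M := A'.carrier) (M' := A.carrier) f φ)
    (ResF.map (M := A.carrier) (M' := A''.carrier) f ψ) h1 h2 h3

/-- Conjugation by `γ` acts on the restriction of a `ℤ[G]`-module. -/
theorem aut_res {C G : Type} [CommGroup C] [Finite C] [Group G] [Finite G] (f : C →* G) (x : C)
    (hconj : ∀ a : ℕ, a.Coprime (Nat.card C) → ∃ γ : G, γ * f x * γ⁻¹ = f x ^ a)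
    (M : Type) [AddCommGroup M] [Module (MonoidAlgebra ℤ G) M] : Aut x (ResF f M) := by
  intro a ha
  obtain ⟨γ, hγ⟩ := hconj a ha
  have hmul : ∀ g h : G, (MonoidAlgebra.single g (1 : ℤ) : MonoidAlgebra ℤ G) *
      MonoidAlgebra.single h (1 : ℤ) = MonoidAlgebra.single (g * h) 1 := fun g h => by
    rw [MonoidAlgebra.single_mul_single, one_mul]
  let e : M ≃+ M :=
    { toFun := fun y => (MonoidAlgebra.single γ (1 : ℤ) : MonoidAlgebra ℤ G) • y
      invFun := fun y => (MonoidAlgebra.single γ⁻¹ (1 : ℤ) : MonoidAlgebra ℤ G) • y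
      left_inv := fun y => by
        show (MonoidAlgebra.single γ⁻¹ (1 : ℤ) : MonoidAlgebra ℤ G) •
          ((MonoidAlgebra.single γ (1 : ℤ) : MonoidAlgebra ℤ G) • y) = y
        rw [← mul_smul, hmul, inv_mul_cancel, ← MonoidAlgebra.one_def, one_smul]
      right_inv := fun y => by
        show (MonoidAlgebra.single γ (1 : ℤ) : MonoidAlgebra ℤ G) •
          ((MonoidAlgebra.single γ⁻¹ (1 : ℤ) : MonoidAlgebra ℤ G) • y) = y
        rw [← mul_smul, hmul, mul_inv_cancel, ← MonoidAlgebra.one_def, one_smul]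
      map_add' := fun y z => smul_add _ y z }
  refine ⟨((ResF.of f M).symm.trans e).trans (ResF.of f M), fun y => ?_⟩
  obtain ⟨y, rfl⟩ := (ResF.of f M).surjective y
  rw [ResF.single_smul, MonoidAlgebra.single_pow, one_pow]
  simp only [AddEquiv.trans_apply, AddEquiv.symm_apply_apply]
  rw [ResF.single_smul]
  congr 1
  show (MonoidAlgebra.single γ (1 : ℤ) : MonoidAlgebra ℤ G) •
    ((MonoidAlgebra.single (f x) (1 : ℤ) : MonoidAlgebra ℤ G) • y) =
    (MonoidAlgebra.single (f (x ^ a)) (1 : ℤ) : MonoidAlgebra ℤ G) •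
      ((MonoidAlgebra.single γ (1 : ℤ) : MonoidAlgebra ℤ G) • y)
  rw [← mul_smul, ← mul_smul, hmul, hmul, map_pow, ← hγ, inv_mul_cancel_right]

end Pool.Agent.Lib.MP_0e6cae_nt.KF
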