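import Pool.Agent.Lib.MP_0e6cae_nt.KF.Res
import Pool.Agent.Lib.MP_0e6cae_nt.KF.Inv
import Pool.Agent.Lib.MP_0e6cae_nt.SW.Swan
import Pool.Agent.Lib.MP_0e6cae_nt.MainB

/-!
The restriction to a cyclic subgroup, all of whose automorphisms are induced by conjugation.
-/

open CategoryTheory

namespace Pool.Agent.Lib.MP_0e6cae_nt.KF

open SW

/-- A finitely generated abelian group killed by an integer `n ≠ 0` prime to `m` is finite of order
prime to `m`. -/
theorem finite_of_kill (M : Type) [AddCommGroup M] [Module.Finite ℤ M] (n m : ℕ) (hn : n ≠ 0)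
    (hnm : n.Coprime m) (h : ∀ y : M, n • y = 0) : Finite M ∧ (Nat.card M).Coprime m := by
  have hfin : Finite M := by
    refine Module.finite_of_fg_torsion M fun {y} => ⟨⟨(n : ℤ), ?_⟩, ?_⟩
    · exact mem_nonZeroDivisors_of_ne_zero (by exact_mod_cast hn)
    · change (n : ℤ) • y = 0
      rw [natCast_zsmul]
      exact h y
  refine ⟨hfin, ?_⟩
  rw [Nat.coprime_iff_gcd_eq_one] at hnm
  refine Nat.Coprime.symm ?_
  refine Nat.coprime_of_dvd fun q hq hqm hqM => ?_
  have hf : Fact q.Prime := ⟨hq⟩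
  obtain ⟨y, hy⟩ := exists_prime_addOrderOf_dvd_card' (G := M) q hqM
  have h1 : q ∣ n := by
    rw [← hy]
    exact addOrderOf_dvd_of_nsmul_eq_zero (h y)
  have h2 : q ∣ Nat.gcd n m := Nat.dvd_gcd h1 hqm
  rw [hnm] at h2
  exact hq.one_lt.ne' (Nat.dvd_one.1 h2)

theorem mk_free {C : Type} [CommGroup C] [Finite C] (t : ℕ)
    (A : FPMod (MonoidAlgebra ℤ C))
    (e : A.carrier ≃ₗ[MonoidAlgebra ℤ C] (Fin t → MonoidAlgebra ℤ C)) :
    K0.mk A = t • K0.mk (FPMod.ofProj (MonoidAlgebra ℤ C) (MonoidAlgebra ℤ C)) := by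
  have h1 : K0.mk A = K0.mk (FPMod.ofProj (MonoidAlgebra ℤ C) (Fin t → MonoidAlgebra ℤ C)) :=
    K0.mk_equiv (M := A)
      (M' := FPMod.ofProj (MonoidAlgebra ℤ C) (Fin t → MonoidAlgebra ℤ C)) e
  have h2 := kcl_pi (R := MonoidAlgebra ℤ C) (s := t) (fun _ => MonoidAlgebra ℤ C)
    (fun _ => inferInstance) (fun _ => inferInstance) inferInstance inferInstance
  rw [Finset.sum_const, Finset.card_univ, Fintype.card_fin] at h2
  exact h1.trans h2

theorem mk_exact' {R : Type} [Ring R] {A B D : Type} [AddCommGroup A] [Module R A]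
    [AddCommGroup B] [Module R B] [AddCommGroup D] [Module R D]
    (h1 : Module.Finite R A) (h1' : ∃ n : ℕ, HasProjectiveDimensionLE (ModuleCat.of R A) n)
    (h2 : Module.Finite R B) (h2' : ∃ n : ℕ, HasProjectiveDimensionLE (ModuleCat.of R B) n)
    (h3 : Module.Finite R D) (h3' : ∃ n : ℕ, HasProjectiveDimensionLE (ModuleCat.of R D) n)
    (f : A →ₗ[R] B) (g : B →ₗ[R] D) (hf : Function.Injective f) (hfg : Function.Exact f g)
    (hg : Function.Surjective g) :
    K0.mk (⟨B, h2, h2'⟩ : FPMod R) = K0.mk ⟨A, h1, h1'⟩ + K0.mk ⟨D, h3, h3'⟩ :=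
  K0.mk_exact (M' := ⟨A, h1, h1'⟩) (M := ⟨B, h2, h2'⟩) (M'' := ⟨D, h3, h3'⟩) f g hf hfg hg

theorem res_projective {C G : Type} [CommGroup C] [Finite C] [Group G] [Finite G] (f : C →* G)
    (hf : Function.Injective f) (x : C) (hx : ∀ y : C, y ∈ Subgroup.zpowers x)
    (hconj : ∀ a : ℕ, a.Coprime (Nat.card C) → ∃ γ : G, γ * f x * γ⁻¹ = f x ^ a)
    (P : FPMod (MonoidAlgebra ℤ G)) (hP : Module.Projective (MonoidAlgebra ℤ G) P.carrier) :
    ∃ t : ℕ, t * Nat.card C = Module.finrank ℤ P.carrier ∧ K0.mk (fres f hf P) =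
      t • K0.mk (FPMod.ofProj (MonoidAlgebra ℤ C) (MonoidAlgebra ℤ C)) := by
  have hPf : Module.Finite (MonoidAlgebra ℤ G) P.carrier := P.fg
  have hPZ : Module.Finite ℤ P.carrier := Module.Finite.trans (MonoidAlgebra ℤ G) P.carrier
  obtain ⟨r, φ, n, hr, hφ, hn0, hnc, hφ2⟩ := swan (G := G) P.carrier (Nat.card C) Nat.card_pos.ne'
  obtain ⟨t, ht, ⟨e⟩⟩ := ResF.free f hf r
  refine ⟨t, ht.trans hr, ?_⟩
  have hMZ : Module.Finite ℤ (P.carrier ⧸ LinearMap.range φ) := by
    have h0 : Function.Surjective (LinearMap.range φ).mkQ.toAddMonoidHom.toIntLinearMap :=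
      Submodule.mkQ_surjective _
    exact Module.Finite.of_surjective _ h0
  have hkill : ∀ y : P.carrier ⧸ LinearMap.range φ, n • y = 0 := by
    intro y
    obtain ⟨z, rfl⟩ := Submodule.mkQ_surjective _ y
    rw [← map_nsmul, Submodule.mkQ_apply, Submodule.Quotient.mk_eq_zero]
    obtain ⟨v, hv⟩ := hφ2 z
    exact ⟨v, hv⟩
  have hM : FCop C (ResF f (P.carrier ⧸ LinearMap.range φ)) :=
    finite_of_kill (P.carrier ⧸ LinearMap.range φ) n (Nat.card C) hn0 hnc hkill
  have hMfin := hM.1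
  have h0 := fcl_eq_zero x hx (ResF f (P.carrier ⧸ LinearMap.range φ)) hM
    (aut_res f x hconj (P.carrier ⧸ LinearMap.range φ))
  have h5 : Function.Injective (ResF.map f φ) := hφ
  have h6 : Function.Exact (ResF.map f φ) (ResF.map f (LinearMap.range φ).mkQ) :=
    fun y => LinearMap.exact_map_mkQ_range φ y
  have h7 : Function.Surjective (ResF.map f (LinearMap.range φ).mkQ) :=
    Submodule.mkQ_surjective (LinearMap.range φ)
  have hF := (fres f hf (FPMod.ofProj (MonoidAlgebra ℤ G) (Fin r → MonoidAlgebra ℤ G))).fg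
  have hF' := (fres f hf (FPMod.ofProj (MonoidAlgebra ℤ G) (Fin r → MonoidAlgebra ℤ G))).fpd
  have h1 := mk_exact' (R := MonoidAlgebra ℤ C) (A := ResF f (Fin r → MonoidAlgebra ℤ G))
    (B := ResF f P.carrier) (D := ResF f (P.carrier ⧸ LinearMap.range φ)) hF hF'
    (fres f hf P).fg (fres f hf P).fpd Module.Finite.of_finite
    (fpd_of_coprime (ResF f (P.carrier ⧸ LinearMap.range φ)) hM.2)
    (ResF.map f φ) (ResF.map f (LinearMap.range φ).mkQ) h5 h6 h7
  have h2 := mk_free t ⟨ResF f (Fin r → MonoidAlgebra ℤ G), hF, hF'⟩ e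
  have h3 : K0.mk (⟨ResF f (P.carrier ⧸ LinearMap.range φ), Module.Finite.of_finite,
    fpd_of_coprime (ResF f (P.carrier ⧸ LinearMap.range φ)) hM.2⟩ : FPMod (MonoidAlgebra ℤ C)) =
      0 := h0
  rw [h3, add_zero, h2] at h1
  exact h1

theorem res_all {C G : Type} [CommGroup C] [Finite C] [Group G] [Finite G] (f : C →* G)
    (hf : Function.Injective f) (x : C) (hx : ∀ y : C, y ∈ Subgroup.zpowers x)
    (hconj : ∀ a : ℕ, a.Coprime (Nat.card C) → ∃ γ : G, γ * f x * γ⁻¹ = f x ^ a)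
    (A : FPMod (MonoidAlgebra ℤ G)) :
    ∃ t : ℤ, t * Nat.card C = Module.finrank ℤ A.carrier ∧ K0.mk (fres f hf A) =
      t • K0.mk (FPMod.ofProj (MonoidAlgebra ℤ C) (MonoidAlgebra ℤ C)) := by
  have hAf : Module.Finite (MonoidAlgebra ℤ G) A.carrier := A.fg
  obtain ⟨k, q, hq⟩ := Module.Finite.exists_fin' (MonoidAlgebra ℤ G) A.carrier
  have hFZ : Module.Finite ℤ (Fin k → MonoidAlgebra ℤ G) := Module.Finite.trans (MonoidAlgebra ℤ G) _
  have hL : Module.Finite (MonoidAlgebra ℤ G) (LinearMap.ker q) := by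
    have : Module.Finite ℤ (LinearMap.ker q) := by
      have h1 : Module.Finite ℤ (LinearMap.ker q.toAddMonoidHom.toIntLinearMap) := inferInstance
      exact h1
    exact Module.Finite.of_restrictScalars_finite ℤ _ _
  have hLfpd := fpd_left (LinearMap.ker q).subtype q Subtype.val_injective
    (LinearMap.exact_subtype_ker_map q) hq A.fpd
  obtain ⟨n, hn⟩ := hLfpd
  have hLp : Module.Projective (MonoidAlgebra ℤ G) (LinearMap.ker q) :=
    projective_of_lattice (LinearMap.ker q)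
      (fun m y hm hy => by
        have h1 : m • (y : Fin k → MonoidAlgebra ℤ G) = 0 := congrArg Subtype.val hy
        refine Subtype.ext ?_
        funext i
        have h2 : m • (y : Fin k → MonoidAlgebra ℤ G) i = 0 := congrFun h1 i
        ext a
        let ψ : MonoidAlgebra ℤ G →+ ℤ :=
          { toFun := fun y => y.coeff a
            map_zero' := by simp
            map_add' := fun y z => by simp }
        have h3 : m * ((y : Fin k → MonoidAlgebra ℤ G) i).coeff a = 0 := by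
          have h4 := map_zsmul ψ m ((y : Fin k → MonoidAlgebra ℤ G) i)
          rw [h2, map_zero, smul_eq_mul] at h4
          exact h4.symm
        exact (mul_eq_zero.1 h3).resolve_left hm) n hn
  obtain ⟨t₁, ht₁, h₁⟩ := res_projective f hf x hx hconj
    (FPMod.ofProj (MonoidAlgebra ℤ G) (Fin k → MonoidAlgebra ℤ G))
    (inferInstanceAs (Module.Projective (MonoidAlgebra ℤ G) (Fin k → MonoidAlgebra ℤ G)))
  obtain ⟨t₂, ht₂, h₂⟩ := res_projective f hf x hx hconj
    (FPMod.ofProj (MonoidAlgebra ℤ G) (LinearMap.ker q)) hLp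
  have hex := fres_exact f hf (A' := FPMod.ofProj (MonoidAlgebra ℤ G) (LinearMap.ker q))
    (A := FPMod.ofProj (MonoidAlgebra ℤ G) (Fin k → MonoidAlgebra ℤ G)) (A'' := A)
    (LinearMap.ker q).subtype q Subtype.val_injective (LinearMap.exact_subtype_ker_map q) hq
  have hrk := finrank_exact (LinearMap.ker q).subtype.toAddMonoidHom q.toAddMonoidHom
    Subtype.val_injective (LinearMap.exact_subtype_ker_map q) hq
  have ht₁' : t₁ * Nat.card C = Module.finrank ℤ (Fin k → MonoidAlgebra ℤ G) := ht₁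
  have ht₂' : t₂ * Nat.card C = Module.finrank ℤ (LinearMap.ker q) := ht₂
  refine ⟨(t₁ : ℤ) - t₂, ?_, ?_⟩
  · have h3 : (t₁ * Nat.card C : ℕ) = t₂ * Nat.card C + Module.finrank ℤ A.carrier := by
      rw [ht₁', ht₂', hrk]
    have h4 : ((t₁ : ℤ) * Nat.card C) = t₂ * Nat.card C + Module.finrank ℤ A.carrier := by
      exact_mod_cast h3
    rw [sub_mul]
    linarith
  · rw [h₁, h₂] at hex
    rw [sub_smul, natCast_zsmul, natCast_zsmul, hex, add_sub_cancel_left]

theorem res_eq {C G : Type} [Group C] [Finite C] [Group G] [Finite G] (f : C →* G)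
    (hf : Function.Injective f) (hC : IsCyclic C)
    (hconj : ∀ φ : C ≃* C, ∃ γ : G, ∀ y : C, f (φ y) = γ * f y * γ⁻¹)
    (A B : FPMod (MonoidAlgebra ℤ G))
    (hAB : Module.finrank ℤ A.carrier = Module.finrank ℤ B.carrier) :
    K0.mk (fres f hf A) = K0.mk (fres f hf B) := by
  let _ : CommGroup C := IsCyclic.commGroup
  obtain ⟨x, hx⟩ := IsCyclic.exists_generator (α := C)
  have hconj' : ∀ a : ℕ, a.Coprime (Nat.card C) → ∃ γ : G, γ * f x * γ⁻¹ = f x ^ a := by
    intro a ha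
    obtain ⟨γ, hγ⟩ := hconj
      { toEquiv := powCoprime (Nat.Coprime.symm ha)
        map_mul' := fun y z => mul_pow y z a }
    refine ⟨γ, ?_⟩
    rw [← hγ x, ← map_pow]
    rfl
  obtain ⟨t, ht, h1⟩ := res_all f hf x hx hconj' A
  obtain ⟨t', ht', h2⟩ := res_all f hf x hx hconj' B
  have h3 : t = t' := by
    have hpos : (0 : ℤ) < Nat.card C := by exact_mod_cast Nat.card_pos
    have h4 : t * Nat.card C = t' * Nat.card C := by rw [ht, ht', hAB]
    exact mul_right_cancel₀ hpos.ne' h4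
  rw [h3] at h1
  exact h1.trans h2.symm

end Pool.Agent.Lib.MP_0e6cae_nt.KF
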